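import Pool.Agent.OddParity.Bridge
import Pool.Agent.OddParity.Cert

set_option autoImplicit false

/-! # Every `((2k-1)², (2k+1)²)` contains an odd integer with an odd number of prime factors -/

namespace Pool.Agent.OddParity

open ArithmeticFunction

/-- The sign `(-1) ^ Ω`. -/
noncomputable def lam (x : ℤ) : ℤˣ := (-1) ^ (cardFactors x.natAbs)

lemma lam_mul : OddMul lam := by
  intro a b ha hb
  have ha0 : a.natAbs ≠ 0 := by
    intro h
    rw [Int.natAbs_eq_zero] at h
    subst h
    exact absurd ha (by decide)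
  have hb0 : b.natAbs ≠ 0 := by
    intro h
    rw [Int.natAbs_eq_zero] at h
    subst h
    exact absurd hb (by decide)
  unfold lam
  rw [Int.natAbs_mul, cardFactors_mul ha0 hb0, pow_add]

lemma lam_three : lam 3 ≠ 1 := by
  unfold lam
  have : (3 : ℤ).natAbs = 3 := rfl
  rw [this, cardFactors_apply_prime Nat.prime_three]
  decide

lemma flat_of_not_claim {k : ℕ} (hk : 1 ≤ k) (h : ¬ Claim k) : Flat lam (2 * (k : ℤ)) := by
  intro n hn h1 h2
  have hn0 : 0 ≤ n := le_trans (by positivity) h1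
  have hno : Odd n.natAbs := Int.natAbs_odd.mpr hn
  have hk2 : Odd (2 * (k : ℤ) - 1) := ⟨k - 1, by ring⟩
  have hk3 : Odd (2 * (k : ℤ) + 1) := ⟨k, by ring⟩
  have hsq : ∀ x : ℤ, Odd x → lam (x ^ 2) = 1 := by
    intro x hx
    rw [pow_two, lam_mul x x hx hx]
    exact Int.units_mul_self _
  rcases eq_or_lt_of_le h1 with h3 | h3
  · rw [← h3]; exact hsq _ hk2
  rcases eq_or_lt_of_le h2 with h4 | h4
  · rw [h4]; exact hsq _ hk3
  unfold lam
  apply Even.neg_one_pow
  rw [← Nat.not_odd_iff_even]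
  intro hodd
  apply h
  refine ⟨n.natAbs, hno, ?_, ?_, hodd⟩
  · zify [(by omega : 1 ≤ 2 * k)]
    rw [abs_of_nonneg hn0]
    exact h3
  · zify
    rw [abs_of_nonneg hn0]
    exact h4

theorem claim_all (k : ℕ) (hk : 1 ≤ k) : Claim k := by
  by_cases h1 : k < 10
  · exact claim_tiny hk h1
  by_cases h2 : k < 2000
  · exact claim_small (by omega) h2
  by_contra hcon
  apply lam_three
  refine three_eq_one lam_mul (flat_of_not_claim hk hcon) (even_two_mul _) (by omega) ?_
  intro y hy hy0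
  by_contra hlt
  push Not at hlt
  obtain ⟨i, hi⟩ : ∃ i : ℕ, y = 2 * i + 1 := by
    have hyo : Odd (y ^ 2) := by rw [hy]; exact ⟨2 * k, rfl⟩
    have hyo' : Odd y := (Int.odd_pow' (by norm_num : (2 : ℕ) ≠ 0)).mp hyo
    obtain ⟨c, hc⟩ := hyo'
    exact ⟨c.toNat, by omega⟩
  have hki : k = i * (i + 1) := by
    rw [hi] at hy
    have : ((k : ℕ) : ℤ) = (i : ℤ) * (i + 1) := by nlinarith
    exact_mod_cast this
  apply hcon
  rw [hki]
  refine claim_special ?_ (by omega)
  by_contra h3
  push Not at h3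
  interval_cases i <;> omega

end Pool.Agent.OddParity
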