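import Pool.Agent.OddParity.GrowDefs

set_option autoImplicit false

/-! # Two cuts are never aligned -/

namespace Pool.Agent.OddParity

/-- Two cuts `r = 2 f²`, `r' = 2 F²` with `f < F` do not exist together. -/
lemma sq_class {K f F b b' : ℤ} (hK : 0 < K) (hf : 1 ≤ f) (hfF : f < F) (hb : 0 ≤ b) (hb' : 0 ≤ b')
    (h1 : f ^ 2 * (K + f ^ 2 - 1) < b ^ 2) (h2 : b ^ 2 < f ^ 2 * (K + f ^ 2 + 1))
    (h3 : F ^ 2 * (K + F ^ 2 - 1) < b' ^ 2) (h4 : b' ^ 2 < F ^ 2 * (K + F ^ 2 + 1))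
    (hbig : (f * F * (F ^ 2 - f ^ 2 + 2)) ^ 2 ≤ 4 * K) : False := by
  have hF : 0 < F := by omega
  have hf0 : 0 < f := by omega
  have hf2 : 0 < f ^ 2 := by positivity
  have hF2 : 0 < F ^ 2 := by positivity
  have e1 : F ^ 2 * (f ^ 2 * (K + f ^ 2 - 1)) < (F * b) ^ 2 := by
    rw [mul_pow]; exact mul_lt_mul_of_pos_left h1 hF2
  have e2 : (F * b) ^ 2 < F ^ 2 * (f ^ 2 * (K + f ^ 2 + 1)) := by
    rw [mul_pow]; exact mul_lt_mul_of_pos_left h2 hF2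
  have e3 : f ^ 2 * (F ^ 2 * (K + F ^ 2 - 1)) < (f * b') ^ 2 := by
    rw [mul_pow]; exact mul_lt_mul_of_pos_left h3 hf2
  have e4 : (f * b') ^ 2 < f ^ 2 * (F ^ 2 * (K + F ^ 2 + 1)) := by
    rw [mul_pow]; exact mul_lt_mul_of_pos_left h4 hf2
  have hX0 : 0 ≤ F * b := by positivity
  have hX'0 : 0 ≤ f * b' := by positivity
  set X := F * b with hX
  set X' := f * b' with hX'
  have hd : 3 ≤ F ^ 2 - f ^ 2 := by nlinarith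
  have hfF2 : 0 < f ^ 2 * F ^ 2 := by positivity
  have hlt : X ^ 2 < X' ^ 2 := by nlinarith
  have hXX : X < X' := lt_of_pow_lt_pow_left₀ 2 hX'0 hlt
  have hup : X' ^ 2 - X ^ 2 < f * F * (f * F * (F ^ 2 - f ^ 2 + 2)) := by nlinarith
  have hlow : 2 * X < X' ^ 2 - X ^ 2 := by nlinarith
  have hsq : (f * F * (f * F * (F ^ 2 - f ^ 2 + 2))) ^ 2 < (2 * X) ^ 2 := by
    have a2 : (f ^ 2 * F ^ 2) * (f * F * (F ^ 2 - f ^ 2 + 2)) ^ 2 ≤ (f ^ 2 * F ^ 2) * (4 * K) :=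
      mul_le_mul_of_nonneg_left hbig hfF2.le
    have a3 : F ^ 2 * (f ^ 2 * K) ≤ F ^ 2 * (f ^ 2 * (K + f ^ 2 - 1)) := by
      apply mul_le_mul_of_nonneg_left _ hF2.le
      apply mul_le_mul_of_nonneg_left _ hf2.le
      have : 1 ≤ f ^ 2 := by omega
      omega
    calc (f * F * (f * F * (F ^ 2 - f ^ 2 + 2))) ^ 2
        = (f ^ 2 * F ^ 2) * (f * F * (F ^ 2 - f ^ 2 + 2)) ^ 2 := by ring
      _ ≤ (f ^ 2 * F ^ 2) * (4 * K) := a2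
      _ = 4 * (F ^ 2 * (f ^ 2 * K)) := by ring
      _ ≤ 4 * (F ^ 2 * (f ^ 2 * (K + f ^ 2 - 1))) := by linarith
      _ < 4 * X ^ 2 := by linarith
      _ = (2 * X) ^ 2 := by ring
  have := lt_of_pow_lt_pow_left₀ 2 (by positivity) hsq
  linarith

lemma align {x y δ ε Y : ℝ} {r r' j : ℤ} (hx0 : 0 ≤ x) (hxY : x ≤ Y) (h1 : |x ^ 2 - 2 * r| ≤ δ)
    (h2 : |y ^ 2 - 2 * r'| ≤ δ) (h3 : |y - x - 2 * j| ≤ ε) (hj0 : 0 ≤ j) (hj2 : j ≤ 2)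
    (hY : 1 ≤ Y) (hε : ε ≤ 1) (hs : 16 * δ + (2 * δ + ε * (2 * Y + 9)) * (4 * Y + 1) < 1)
    (hs1 : 2 * δ + ε * (2 * Y + 9) ≤ 1) :
    (r' - r - 2 * j ^ 2) ^ 2 = 8 * j ^ 2 * r := by
  have hε0 : 0 ≤ ε := le_trans (abs_nonneg _) h3
  have hδ0 : 0 ≤ δ := le_trans (abs_nonneg _) h1
  have hjr0 : (0 : ℝ) ≤ j := by exact_mod_cast hj0
  have hjr2 : (j : ℝ) ≤ 2 := by exact_mod_cast hj2
  obtain ⟨e, he⟩ : ∃ e : ℝ, e = y - x - 2 * j := ⟨_, rfl⟩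
  rw [← he] at h3
  have hy : y = x + 2 * j + e := by rw [he]; ring
  rw [abs_le] at h1 h2 h3
  have hb : |e * (2 * x + 4 * j + e)| ≤ ε * (2 * Y + 9) := by
    rw [abs_mul]
    apply mul_le_mul (abs_le.mpr h3) _ (abs_nonneg _) hε0
    rw [abs_le]
    constructor <;> linarith
  rw [abs_le] at hb
  set D := 2 * δ + ε * (2 * Y + 9) with hD
  have hD0 : 0 ≤ D := by positivity
  obtain ⟨m, hm⟩ : ∃ m : ℝ, m = r' - r - 2 * j ^ 2 := ⟨_, rfl⟩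
  have hyx : y ^ 2 = x ^ 2 + 4 * j * x + 4 * j ^ 2 + e * (2 * x + 4 * j + e) := by rw [hy]; ring
  have k1 : 2 * (m - 2 * j * x) ≤ D := by rw [hm]; nlinarith
  have k2 : -D ≤ 2 * (m - 2 * j * x) := by rw [hm]; nlinarith
  have hjx0 : 0 ≤ 2 * j * x := by positivity
  have hjxY : 2 * j * x ≤ 4 * Y := by nlinarith [mul_le_mul hjr2 hxY hx0 (by norm_num)]
  obtain ⟨q, hq⟩ : ∃ q : ℝ, q = m - 2 * j * x := ⟨_, rfl⟩
  have hmq : m = q + 2 * j * x := by rw [hq]; ring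
  rw [← hq] at k1 k2
  have k3 : |m ^ 2 - 4 * j ^ 2 * x ^ 2| ≤ D * (4 * Y + 1) := by
    have : m ^ 2 - 4 * j ^ 2 * x ^ 2 = q * (q + 4 * j * x) := by rw [hmq]; ring
    rw [this, abs_mul]
    have a1 : |q| ≤ D / 2 := by rw [abs_le]; constructor <;> linarith
    have a2 : |q + 4 * j * x| ≤ 8 * Y + 1 := by
      rw [abs_le]; constructor <;> nlinarith
    calc |q| * |q + 4 * j * x| ≤ (D / 2) * (8 * Y + 1) :=
          mul_le_mul a1 a2 (abs_nonneg _) (by positivity)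
      _ ≤ D * (4 * Y + 1) := by nlinarith
  have k4 : |4 * (j : ℝ) ^ 2 * x ^ 2 - 8 * j ^ 2 * r| ≤ 16 * δ := by
    have : 4 * (j : ℝ) ^ 2 * x ^ 2 - 8 * j ^ 2 * r = (4 * j ^ 2) * (x ^ 2 - 2 * r) := by ring
    rw [this, abs_mul]
    have a1 : |4 * (j : ℝ) ^ 2| ≤ 16 := by
      rw [abs_of_nonneg (by positivity)]; nlinarith
    exact mul_le_mul a1 (abs_le.mpr h1) (abs_nonneg _) (by norm_num)
  rw [abs_le] at k3 k4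
  have hreal : |(((r' - r - 2 * j ^ 2) ^ 2 - 8 * j ^ 2 * r : ℤ) : ℝ)| < 1 := by
    push_cast
    rw [← hm, abs_lt]
    constructor <;> linarith
  have hint : |(r' - r - 2 * j ^ 2) ^ 2 - 8 * j ^ 2 * r| < 1 := by exact_mod_cast hreal
  have := Int.abs_lt_one_iff.mp hint
  linarith

/-- The size of the parameters of a cut. -/
lemma cut_real {K a : ℤ} {w Y : ℝ} (hw0 : 0 < w) (hw : w ^ 4 = (K : ℝ)) (hY : 1 ≤ Y) (ha0 : 0 < a)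
    (haY : (a : ℝ) ≤ Y * w ^ 2) {r : ℤ} (hr : 1 ≤ r)
    (h1 : r * (2 * K + r - 2) < (a - r + 1) ^ 2) (h2 : (a - r + 1) ^ 2 < r * (2 * K + r + 2)) :
    (r : ℝ) ≤ Y ^ 2 ∧ r < a - r + 1 ∧ 0 ≤ ((a - r + 1 : ℤ) : ℝ) / w ^ 2 ∧
      ((a - r + 1 : ℤ) : ℝ) / w ^ 2 ≤ Y ∧
      |(((a - r + 1 : ℤ) : ℝ) / w ^ 2) ^ 2 - 2 * r| ≤ 3 * Y ^ 4 / w ^ 4 := by
  have hw2 : 0 < w ^ 2 := by positivity
  have hw4 : 0 < w ^ 4 := by positivity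
  have hKr : (0 : ℝ) < K := by rw [← hw]; exact hw4
  have hK : 0 < K := by exact_mod_cast hKr
  have hP2 : r ^ 2 < (a - r + 1) ^ 2 := by nlinarith
  have hPr : r < a - r + 1 := by
    rcases lt_or_ge r (a - r + 1) with h | h
    · exact h
    · exfalso
      nlinarith
  have hPa : a - r + 1 ≤ a := by omega
  obtain ⟨P, hP⟩ : ∃ P : ℤ, P = a - r + 1 := ⟨_, rfl⟩
  rw [← hP] at h1 h2 hP2 hPr hPa ⊢
  have hP0 : (0 : ℝ) ≤ P := by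
    have : 0 ≤ P := by omega
    exact_mod_cast this
  have hPaR : (P : ℝ) ≤ a := by exact_mod_cast hPa
  have hPY : (P : ℝ) ≤ Y * w ^ 2 := le_trans hPaR haY
  have hP2Y : (P : ℝ) ^ 2 ≤ Y ^ 2 * K := by
    calc (P : ℝ) ^ 2 ≤ (Y * w ^ 2) ^ 2 := pow_le_pow_left₀ hP0 hPY 2
      _ = Y ^ 2 * K := by rw [← hw]; ring
  have h1R : (r : ℝ) * (2 * K + r - 2) < (P : ℝ) ^ 2 := by exact_mod_cast h1
  have h2R : (P : ℝ) ^ 2 < (r : ℝ) * (2 * K + r + 2) := by exact_mod_cast h2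
  have hrR : (1 : ℝ) ≤ r := by exact_mod_cast hr
  have hKR1 : (1 : ℝ) ≤ K := by
    have : 1 ≤ K := by omega
    exact_mod_cast this
  have hrY : (r : ℝ) ≤ Y ^ 2 := by
    by_contra hcon
    push Not at hcon
    have : Y ^ 2 * K < r * K := mul_lt_mul_of_pos_right hcon hKr
    nlinarith
  refine ⟨hrY, hPr, by positivity, ?_, ?_⟩
  · rw [div_le_iff₀ hw2]; exact hPY
  · have e : ((P : ℝ) / w ^ 2) ^ 2 - 2 * r = ((P : ℝ) ^ 2 - 2 * r * K) / w ^ 4 := by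
      rw [← hw]; field_simp
    rw [e, abs_div, abs_of_pos hw4]
    apply div_le_div_of_nonneg_right _ hw4.le
    have h3 : (r : ℝ) ^ 2 ≤ Y ^ 4 := by
      calc (r : ℝ) ^ 2 ≤ (Y ^ 2) ^ 2 := pow_le_pow_left₀ (by linarith) hrY 2
        _ = Y ^ 4 := by ring
    have h4 : (r : ℝ) ≤ (r : ℝ) ^ 2 := by nlinarith
    rw [abs_le]
    constructor <;> nlinarith

/-- Cuts with `r = 2 n²`: the square class. -/
lemma cut_sq {K a n : ℤ} (ha : Odd a)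
    (h1 : 2 * n ^ 2 * (2 * K + 2 * n ^ 2 - 2) < (a - 2 * n ^ 2 + 1) ^ 2)
    (h2 : (a - 2 * n ^ 2 + 1) ^ 2 < 2 * n ^ 2 * (2 * K + 2 * n ^ 2 + 2))
    (h3 : 0 < a - 2 * n ^ 2 + 1) :
    ∃ b : ℤ, 0 ≤ b ∧ |n| ^ 2 * (K + |n| ^ 2 - 1) < b ^ 2 ∧ b ^ 2 < |n| ^ 2 * (K + |n| ^ 2 + 1) := by
  obtain ⟨m, hm⟩ := ha
  refine ⟨m + 1 - n ^ 2, ?_, ?_, ?_⟩
  · omega
  · rw [sq_abs]; rw [hm] at h1; nlinarith
  · rw [sq_abs]; rw [hm] at h2; nlinarith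

/-- Two different numbers `n, n'` cannot both give a cut of the square class. -/
lemma sq_excl {K a a' n n' : ℤ} {w Y : ℝ} (hw0 : 0 < w) (hw : w ^ 4 = (K : ℝ)) (hY : 1 ≤ Y)
    (hbig : Y ^ 4 ≤ w ^ 2) (ha : Odd a) (ha' : Odd a')
    (hn : 1 ≤ 2 * n ^ 2) (hn' : 1 ≤ 2 * n' ^ 2) (hne : |n| ≠ |n'|)
    (hnY : ((2 * n ^ 2 : ℤ) : ℝ) ≤ Y ^ 2) (hnY' : ((2 * n' ^ 2 : ℤ) : ℝ) ≤ Y ^ 2)
    (h1 : 2 * n ^ 2 * (2 * K + 2 * n ^ 2 - 2) < (a - 2 * n ^ 2 + 1) ^ 2)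
    (h2 : (a - 2 * n ^ 2 + 1) ^ 2 < 2 * n ^ 2 * (2 * K + 2 * n ^ 2 + 2))
    (h3 : 0 < a - 2 * n ^ 2 + 1)
    (h1' : 2 * n' ^ 2 * (2 * K + 2 * n' ^ 2 - 2) < (a' - 2 * n' ^ 2 + 1) ^ 2)
    (h2' : (a' - 2 * n' ^ 2 + 1) ^ 2 < 2 * n' ^ 2 * (2 * K + 2 * n' ^ 2 + 2))
    (h3' : 0 < a' - 2 * n' ^ 2 + 1) : False := by
  have hw4 : 0 < w ^ 4 := by positivity
  have hKr : (0 : ℝ) < K := by rw [← hw]; exact hw4
  have hK : 0 < K := by exact_mod_cast hKr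
  obtain ⟨b, hb0, hb1, hb2⟩ := cut_sq ha h1 h2 h3
  obtain ⟨b', hb0', hb1', hb2'⟩ := cut_sq ha' h1' h2' h3'
  have pos : ∀ t : ℤ, 1 ≤ 2 * t ^ 2 → 1 ≤ |t| := by
    intro t ht
    apply Int.one_le_abs
    rintro rfl
    norm_num at ht
  have size : ∀ f F : ℤ, 1 ≤ f → f < F → ((2 * F ^ 2 : ℤ) : ℝ) ≤ Y ^ 2 →
      (f * F * (F ^ 2 - f ^ 2 + 2)) ^ 2 ≤ 4 * K := by
    intro f F hf hfF hF
    push_cast at hF
    have hfR : (1 : ℝ) ≤ f := by exact_mod_cast hf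
    have hfFR : (f : ℝ) ≤ F := by exact_mod_cast hfF.le
    have hFR : (1 : ℝ) ≤ F := by linarith
    have a1 : (f : ℝ) * F * (F ^ 2 - f ^ 2 + 2) ≤ 3 * F ^ 4 := by
      have b1 : (F : ℝ) ^ 2 - f ^ 2 + 2 ≤ 3 * F ^ 2 := by nlinarith
      have b2 : (f : ℝ) * F ≤ F ^ 2 := by nlinarith
      have b3 : (0 : ℝ) ≤ F ^ 2 - f ^ 2 + 2 := by nlinarith
      calc (f : ℝ) * F * (F ^ 2 - f ^ 2 + 2) ≤ F ^ 2 * (3 * F ^ 2) :=
            mul_le_mul b2 b1 b3 (by positivity)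
        _ = 3 * F ^ 4 := by ring
    have a0 : (0 : ℝ) ≤ (f : ℝ) * F * (F ^ 2 - f ^ 2 + 2) := by
      have b3 : (0 : ℝ) ≤ F ^ 2 - f ^ 2 + 2 := by nlinarith
      positivity
    have a2 : 3 * (F : ℝ) ^ 4 ≤ w ^ 2 := by
      have : (F : ℝ) ^ 4 = (F ^ 2) ^ 2 := by ring
      have b4 : (F : ℝ) ^ 2 ≤ Y ^ 2 / 2 := by linarith
      have b5 : ((F : ℝ) ^ 2) ^ 2 ≤ (Y ^ 2 / 2) ^ 2 := pow_le_pow_left₀ (by positivity) b4 2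
      nlinarith
    have a3 : ((f : ℝ) * F * (F ^ 2 - f ^ 2 + 2)) ^ 2 ≤ 4 * K := by
      calc ((f : ℝ) * F * (F ^ 2 - f ^ 2 + 2)) ^ 2 ≤ (w ^ 2) ^ 2 :=
            pow_le_pow_left₀ a0 (a1.trans a2) 2
        _ = K := by rw [← hw]; ring
        _ ≤ 4 * K := by linarith
    exact_mod_cast a3
  rcases lt_or_gt_of_ne hne with h | h
  · exact sq_class hK (pos n hn) h hb0 hb0' hb1 hb2 hb1' hb2'
      (size _ _ (pos n hn) h (by rw [sq_abs]; exact hnY'))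
  · exact sq_class hK (pos n' hn') h hb0' hb0 hb1' hb2' hb1 hb2
      (size _ _ (pos n' hn') h (by rw [sq_abs]; exact hnY))

end Pool.Agent.OddParity
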