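import Pool.Agent.OddParity.Cross

set_option autoImplicit false

/-! # A block without defects outside the cuts forces `g 3 = 1` -/

namespace Pool.Agent.OddParity

variable {g : ℤ → ℤˣ} {K : ℤ}

lemma quad_b1 (s p K A : ℤ) (hs : 1000 ≤ s) (hK : K ≤ 100 * s ^ 2) (hA : 100 * A ≤ s ^ 2)
    (hp1 : 58 * s - 10 ≤ 10 * p) (hp2 : 10 * p ≤ 58 * s + 10) :
    2 * p ^ 2 - (48 * s - 3) * p + 2 * (K + A + s - 1) ≤ 0 := by
  have a1 : 0 ≤ (10 * p - 58 * s + 10) * (58 * s + 10 - 10 * p) := mul_nonneg (by omega) (by omega)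
  have a2 : 0 ≤ (10 * p - 58 * s + 10) * (s - 1000) := mul_nonneg (by omega) (by omega)
  have a3 : 0 ≤ (s - 1000) * (s - 1000) := mul_nonneg (by omega) (by omega)
  nlinarith

lemma quad_b2 (s p K A : ℤ) (hs : 1000 ≤ s) (hK : K ≤ 100 * s ^ 2) (hA : 100 * A ≤ s ^ 2)
    (hp1 : 58 * s - 10 ≤ 10 * p) (hp2 : 10 * p ≤ 58 * s + 10) :
    2 * (3 * p) ^ 2 - (48 * s - 3) * (3 * p) + 2 * (K + A + s - 1) ≤ 0 := by
  have a1 : 0 ≤ (10 * p - 58 * s + 10) * (58 * s + 10 - 10 * p) := mul_nonneg (by omega) (by omega)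
  have a2 : 0 ≤ (58 * s + 10 - 10 * p) * (s - 1000) := mul_nonneg (by omega) (by omega)
  have a3 : 0 ≤ (s - 1000) * (s - 1000) := mul_nonneg (by omega) (by omega)
  nlinarith

theorem blockStmt : BlockStmt := by
  intro g K A s w Y hg hK hw0 hw hY hbig hs1 hs2 hA hAY hbl
  obtain ⟨z1, z2, z3, z4⟩ := size_aux hw0 hY hbig
  have hw2 : 0 < w ^ 2 := by positivity
  have hKr : (0 : ℝ) < K := by rw [← hw]; positivity
  have hK0 : 0 < K := by exact_mod_cast hKr
  have hs1000 : 1000 ≤ s := by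
    have : (1000 : ℝ) ≤ s := by linarith
    exact_mod_cast this
  have hKs : K ≤ 100 * s ^ 2 := by
    have h1 : (K : ℝ) ≤ 100 * (s : ℝ) ^ 2 := by
      rw [← hw]
      calc w ^ 4 = (w ^ 2) ^ 2 := by ring
        _ ≤ (10 * (s : ℝ)) ^ 2 := pow_le_pow_left₀ hw2.le hs1 2
        _ = 100 * (s : ℝ) ^ 2 := by ring
    exact_mod_cast h1
  have hAs : 100 * A ≤ s ^ 2 := by
    have hsR : (0 : ℝ) < s := by linarith
    have h1 : (A : ℝ) ≤ Y * (10 * s) := by
      have : Y * w ^ 2 ≤ Y * (10 * s) := mul_le_mul_of_nonneg_left hs1 (by linarith)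
      linarith
    have h2 : 1000 * Y ≤ s := by
      have : 10 ^ 6 * Y ≤ w ^ 2 := by linarith
      linarith
    have h3 : 100 * (A : ℝ) ≤ (s : ℝ) ^ 2 := by nlinarith
    exact_mod_cast h3
  have hstep : ∀ a : ℤ, Odd a → A + s ≤ a → a + 2 ≤ A + 49 * s → g (K + a) = g (K + (a + 2)) := by
    intro a ha h1 h2
    rw [← add_assoc]
    by_cases hc : Cut K a
    · exact cross hg hK hw0 hw hY hbig hs1 hA hAY hbl ha hc h1 (by omega)
    · exact hbl a ha (by omega) (by omega) hc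
  have hc := const_of_steps (fun a => g (K + a)) hstep
  obtain ⟨q, hqo, hq1, hq2⟩ : ∃ q : ℤ, Odd q ∧ A + s ≤ q ∧ q ≤ A + s + 1 := by
    rcases Int.even_or_odd (A + s) with h | h
    · exact ⟨A + s + 1, h.add_one, by omega, le_rfl⟩
    · exact ⟨A + s, h, le_rfl, by omega⟩
  have hwin : ∀ n : ℤ, Odd n → K + A + s ≤ n → n ≤ K + A + 49 * s → g n = g (K + q) := by
    intro n hn h1 h2
    have hno : Odd (n - K) := hn.sub_even hK
    have e : g n = g (K + (n - K)) := by congr 1; ring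
    rw [e]
    refine (hc q (n - K) hqo hno hq1 ?_ (by omega)).symm
    obtain ⟨x, hx⟩ := hno
    obtain ⟨y, hy⟩ := hqo
    omega
  obtain ⟨j, hj⟩ : ∃ j : ℤ, j = 29 * s / 10 := ⟨_, rfl⟩
  have hj1 : 29 * s - 10 < 10 * j := by omega
  have hj2 : 10 * j ≤ 29 * s := by omega
  have e1 : (K + A + 49 * s) - (K + A + s) - 3 = 48 * s - 3 := by ring
  have e2 : K + A + s - 1 = K + A + s - 1 := rfl
  refine three_of_const hg (L := K + A + s) (U := K + A + 49 * s) (by omega) hwin (p := 2 * j + 1)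
    ⟨j, rfl⟩ (by omega) ?_ ?_
  · rw [e1]
    exact quad_b1 s (2 * j + 1) K A hs1000 hKs hAs (by omega) (by omega)
  · rw [e1]
    exact quad_b2 s (2 * j + 1) K A hs1000 hKs hAs (by omega) (by omega)

end Pool.Agent.OddParity
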