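import Pool.Agent.OddParity.Exist

set_option autoImplicit false

/-! # The case `2 K + 1 = y ^ 2`, end of the proof, and the general theorem -/

namespace Pool.Agent.OddParity

variable {g : ℤ → ℤˣ} {K : ℤ}

lemma rect_ch (hg : OddMul g) {c h : ℤ} {e : ℤˣ} (hodd : Odd (c + h))
    (h1 : g (c ^ 2 - h ^ 2 + 2 * c - 2 * h) = e) (h2 : g (c ^ 2 - h ^ 2 + 2 * c + 2 * h) = e) :
    g (c ^ 2 - h ^ 2) = g ((c + 2) ^ 2 - h ^ 2) := by
  have hp : Odd (c - h) := by
    have : c - h = c + h - 2 * h := by ring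
    rw [this]; exact hodd.sub_even (even_two_mul h)
  have e1 : (c - h) * (c + h) = c ^ 2 - h ^ 2 := by ring
  have e2 : (c - h) * (c + h + 2) = c ^ 2 - h ^ 2 + 2 * c - 2 * h := by ring
  have e3 : (c - h + 2) * (c + h) = c ^ 2 - h ^ 2 + 2 * c + 2 * h := by ring
  have e4 : (c - h + 2) * (c + h + 2) = (c + 2) ^ 2 - h ^ 2 := by ring
  have := rect hg hp hodd (e := e) (by rw [e2]; exact h1) (by rw [e3]; exact h2)
  rw [e1, e4] at this
  exact this

lemma window_zero (hg : OddMul g) (hF : Flat g K) (hK : Even K) {y : ℤ} (hy : y ^ 2 = 2 * K + 1)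
    (hy0 : 2700 ≤ y) (hK0 : 4000 ≤ K) :
    ∀ n : ℤ, Odd n → K - y + 2 ≤ n → n ≤ K + y → g n = g (K + 1) := by
  have st0 : ∀ a : ℤ, Odd a → 2 - y ≤ a → a + 2 ≤ y → g (K + a) = g (K + (a + 2)) := by
    intro a ha h1 h2
    have h3 : a ^ 2 ≤ (y - 2) ^ 2 := by
      have : 0 ≤ (y - 2 - a) * (y - 2 + a) := mul_nonneg (by omega) (by omega)
      nlinarith
    have h4 : (a - 2) ^ 2 ≤ y ^ 2 := by
      have : 0 ≤ (y - (a - 2)) * (y + (a - 2)) := mul_nonneg (by omega) (by omega)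
      nlinarith
    have h5 : (y - 2) ^ 2 = y ^ 2 - 4 * y + 4 := by ring
    have := region_step hg hF hK (by omega) ha (by omega) (by omega)
    rw [this, add_assoc]
  have c0 := const_of_steps (fun a => g (K + a)) st0
  intro n hn h1 h2
  have hno : Odd (n - K) := hn.sub_even hK
  have e : g n = g (K + (n - K)) := by congr 1; ring
  rw [e]
  rcases le_total (n - K) 1 with h | h
  · exact c0 (n - K) 1 hno odd_one (by omega) h (by omega)
  · exact (c0 1 (n - K) odd_one hno (by omega) h (by omega)).symm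

lemma window_one (hg : OddMul g) (hF : Flat g K) (hK : Even K) {y : ℤ} (hy : y ^ 2 = 2 * K + 1)
    (hy0 : 2700 ≤ y) (hK0 : 4000 ≤ K) (hyo : Odd y) :
    ∀ n : ℤ, Odd n → 1000 * K ≤ 1000 * n + 1100 * y → n ≤ K - y → g n = g (K - y) := by
  intro n hn h1 h2
  have hno : Odd (n - K) := hn.sub_even hK
  have e : g n = g (K + (n - K)) := by congr 1; ring
  have e' : g (K - y) = g (K + (-y)) := by congr 1
  rw [e, e']
  refine const_of_steps (fun a => g (K + a)) (A := n - K) (B := -y) ?_ (n - K) (-y) hno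
    hyo.neg le_rfl (by omega) le_rfl
  intro a ha h3 h4
  have h5 : (y + 2) ^ 2 ≤ (-a) ^ 2 := by
    apply pow_le_pow_left₀ (by omega)
    omega
  have h6 : (1000 * (2 - a)) ^ 2 ≤ (1700 * y) ^ 2 := by
    apply pow_le_pow_left₀ (by omega)
    omega
  have h7 : (a - 2) ^ 2 ≤ 3 * y ^ 2 := by nlinarith
  have h8 : a ^ 2 ≠ 2 * K + 1 := by
    have : (y + 2) ^ 2 = y ^ 2 + 4 * y + 4 := by ring
    have h9 : (-a) ^ 2 = a ^ 2 := by ring
    omega
  have := region_step hg hF hK (by omega) ha (by omega) h8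
  show g (K + a) = g (K + (a + 2))
  rw [this, add_assoc]

lemma window_three (hg : OddMul g) (hF : Flat g K) (hK : Even K) {y T R : ℤ}
    (hy : y ^ 2 = 2 * K + 1) (hy0 : 2700 ≤ y) (hK0 : 4000 ≤ K)
    (hT : 3 * y ^ 2 + 12 ≤ T ^ 2) (hT0 : 0 ≤ T) (hR : R ^ 2 ≤ 5 * y ^ 2 + 10)
    (hRb : 2236 * y ≤ 1000 * (R + 1)) :
    ∀ n m : ℤ, Odd n → Odd m → K + T + 2 ≤ n → K + T + 2 ≤ m →
      1000 * n ≤ 1000 * K + 2100 * y → 1000 * m ≤ 1000 * K + 2100 * y → g n = g m := by
  have st3 : ∀ a : ℤ, Odd a → T + 2 ≤ a → a + 2 ≤ 2100 * y / 1000 + 1 →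
      g (K + a) = g (K + (a + 2)) := by
    intro a ha h1 h2
    have := step_outer hg hF hK hK0 (T := T) (R := R) hy (by omega) hT hT0 hR ha (by omega)
      (by omega)
    rw [this, add_assoc]
  have c3 := const_of_steps (fun a => g (K + a)) st3
  intro n m hn hm h1 h2 h3 h4
  have hno : Odd (n - K) := hn.sub_even hK
  have hmo : Odd (m - K) := hm.sub_even hK
  have e : g n = g (K + (n - K)) := by congr 1; ring
  have e' : g m = g (K + (m - K)) := by congr 1; ring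
  rw [e, e']
  rcases le_total (n - K) (m - K) with h | h
  · exact c3 (n - K) (m - K) hno hmo (by omega) h (by omega)
  · exact (c3 (m - K) (n - K) hmo hno (by omega) h (by omega)).symm

lemma corner_odd {c h : ℤ} (ho : Odd (c + h)) : Odd (c ^ 2 - h ^ 2) ∧ Odd ((c + 2) ^ 2 - h ^ 2) ∧
    Odd (c ^ 2 - h ^ 2 + 2 * c - 2 * h) ∧ Odd (c ^ 2 - h ^ 2 + 2 * c + 2 * h) := by
  have hp : Odd (c - h) := by
    have : c - h = c + h - 2 * h := by ring
    rw [this]; exact ho.sub_even (even_two_mul h)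
  have e0 : c ^ 2 - h ^ 2 = (c - h) * (c + h) := by ring
  have o1 : Odd (c ^ 2 - h ^ 2) := by rw [e0]; exact hp.mul ho
  refine ⟨o1, ?_, ?_, ?_⟩
  · have : (c + 2) ^ 2 - h ^ 2 = (c ^ 2 - h ^ 2) + 2 * (2 * c + 2) := by ring
    rw [this]; exact o1.add_even (even_two_mul _)
  · have : c ^ 2 - h ^ 2 + 2 * c - 2 * h = (c ^ 2 - h ^ 2) + 2 * (c - h) := by ring
    rw [this]; exact o1.add_even (even_two_mul _)
  · have : c ^ 2 - h ^ 2 + 2 * c + 2 * h = (c ^ 2 - h ^ 2) + 2 * (c + h) := by ring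
    rw [this]; exact o1.add_even (even_two_mul _)

lemma bridge (hg : OddMul g) (hF : Flat g K) (hK : Even K) {y : ℤ} (hy : y ^ 2 = 2 * K + 1)
    (hy0 : 2700 ≤ y) (hK0 : 4000 ≤ K) (hyo : Odd y) : g (K - y) = g (K + 1) := by
  obtain ⟨T0, hT00, hT01, hT02⟩ := exists_isqrt (3 * y ^ 2 + 12) (by positivity)
  obtain ⟨R, hR0, hR1, hR2⟩ := exists_isqrt (5 * y ^ 2 + 10) (by positivity)
  have hTb : 10000 * (T0 + 1) ≤ 17321 * y + 10000 := by
    by_contra hcon
    push Not at hcon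
    have h3 : (17321 * y) ^ 2 ≤ (10000 * T0) ^ 2 := by
      apply pow_le_pow_left₀ (by omega)
      omega
    nlinarith
  have hRb : 2236 * y ≤ 1000 * (R + 1) := by
    by_contra hcon
    push Not at hcon
    have h3 : (1000 * (R + 1)) ^ 2 ≤ (2236 * y) ^ 2 := by
      apply pow_le_pow_left₀ (by omega)
      omega
    nlinarith
  have w0 := window_zero hg hF hK hy hy0 hK0
  have w1 := window_one hg hF hK hy hy0 hK0 hyo
  have w3 := window_three hg hF hK (T := T0 + 1) (R := R) hy hy0 hK0 (by omega) (by omega) hR1 hRb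
  obtain ⟨c, h, b1, b2, b3, b4, b5, b6, b7, b8, b9⟩ := exists_rect_b (T := T0 + 1) hy hy0 hTb
  obtain ⟨c', h', a1, a2, a3, a4, a5, a6, a7, a8, a9⟩ := exists_rect_a (T := T0 + 1) hy hy0 hTb
  obtain ⟨pb1, pb2, pb3, pb4⟩ := corner_odd b3
  obtain ⟨pa1, pa2, pa3, pa4⟩ := corner_odd a3
  have rb : g (c ^ 2 - h ^ 2) = g ((c + 2) ^ 2 - h ^ 2) :=
    rect_ch hg b3 (w0 _ pb3 b8 (by omega)) (w0 _ pb4 (by omega) b9)
  have ra : g (c' ^ 2 - h' ^ 2) = g ((c' + 2) ^ 2 - h' ^ 2) :=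
    rect_ch hg a3 (w0 _ pa3 a8 (by omega)) (w0 _ pa4 (by omega) a9)
  rw [← w1 _ pb1 b5 b4, rb, w3 _ _ pb2 pa2 b6 a6 (by omega) a7, ← ra, w0 _ pa1 a4 a5]

lemma special (hg : OddMul g) (hF : Flat g K) (hK : Even K) {y : ℤ} (hy : y ^ 2 = 2 * K + 1)
    (hy0 : 2700 ≤ y) : g 3 = 1 := by
  have hK0 : 4000 ≤ K := by nlinarith
  have hyK : 2 * y + 2 ≤ 2 * K := by nlinarith
  have hyo : Odd y := by
    have : Odd (y ^ 2) := by rw [hy]; exact ⟨K, rfl⟩
    exact (Int.odd_pow' (by norm_num : (2 : ℕ) ≠ 0)).mp this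
  have w0 := window_zero hg hF hK hy hy0 hK0
  have key := bridge hg hF hK hy hy0 hK0 hyo
  have up : g (K + y + 2) = g (K - y) := by
    have hprod : (K + y + 2) * (K - y) = K ^ 2 - 2 * y - 1 := by
      have : (K + y + 2) * (K - y) = K ^ 2 + 2 * K - y ^ 2 - 2 * y := by ring
      rw [this, hy]; ring
    apply pair hg hF
    · have : K + y + 2 = K + (y + 2) := by ring
      rw [this]
      exact hK.add_odd (hyo.add_even even_two)
    · exact hK.sub_odd hyo
    · rw [hprod]; nlinarith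
    · rw [hprod]; nlinarith
  refine three_of_region hg hK hK0 ?_
  intro a ha h1
  by_cases h2 : a ^ 2 = 2 * K + 1
  · have h3 : a = y ∨ a = -y := by
      have : a ^ 2 = y ^ 2 := by rw [h2, hy]
      exact sq_eq_sq_iff_eq_or_eq_neg.mp this
    rcases h3 with rfl | rfl
    · rw [up, key]
      exact w0 _ (hK.add_odd hyo) (by omega) le_rfl
    · have e1 : K + -y = K - y := by ring
      rw [e1, key]
      exact (w0 _ (by
        have := hK.sub_odd hyo
        exact this.add_even even_two) (by omega) (by omega)).symm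
  · exact region_step hg hF hK (by omega) ha h1 h2

/-- **Main theorem.** If `g` is multiplicative on the odd integers, `K` is even and large and `g = 1` at all
odd integers between `(K - 1)²` and `(K + 1)²`, then `g 3 = 1`. -/
theorem three_eq_one (hg : OddMul g) (hF : Flat g K) (hK : Even K) (hK0 : 4000 ≤ K)
    (hsp : ∀ y : ℤ, y ^ 2 = 2 * K + 1 → 0 ≤ y → 2700 ≤ y) : g 3 = 1 := by
  by_cases h : ∃ y : ℤ, y ^ 2 = 2 * K + 1
  · obtain ⟨y, hy⟩ := h
    have hy' : |y| ^ 2 = 2 * K + 1 := by rw [sq_abs]; exact hy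
    exact special hg hF hK hy' (hsp _ hy' (abs_nonneg y))
  · push Not at h
    refine three_of_region hg hK hK0 ?_
    intro a ha h1
    exact region_step hg hF hK (by omega) ha h1 (h a)

end Pool.Agent.OddParity
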