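import Pool.Agent.OddParity.Core

set_option autoImplicit false

/-! # From a constant window near `K` to `g 3 = 1` -/

namespace Pool.Agent.OddParity

variable {g : ℤ → ℤˣ} {K : ℤ}

/-- If `g` is constant on the odd integers of `[L, U]` then `g p = g (p + 2)` for the odd `p` with
`2 p² - (U - L - 3) p + 2 (L - 1) ≤ 0`. -/
lemma chain_step (hg : OddMul g) {L U : ℤ} {e : ℤˣ} (hL : 1 ≤ L)
    (hc : ∀ n : ℤ, Odd n → L ≤ n → n ≤ U → g n = e) {p : ℤ} (hp : Odd p) (hp0 : 1 ≤ p)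
    (hQ : 2 * p ^ 2 - (U - L - 3) * p + 2 * (L - 1) ≤ 0) : g p = g (p + 2) := by
  obtain ⟨j, hj1, hj2⟩ : ∃ j : ℤ, L - p ≤ 2 * p * j ∧ 2 * p * j < L + p := by
    refine ⟨(L + p - 1) / (2 * p), ?_, ?_⟩
    · have h := Int.lt_ediv_add_one_mul_self (L + p - 1) (by omega : 0 < 2 * p)
      nlinarith
    · have h := Int.ediv_mul_le (L + p - 1) (by omega : (2 * p) ≠ 0)
      nlinarith
  have hq : Odd (2 * j + 1) := ⟨j, rfl⟩
  have h1 : L ≤ p * (2 * j + 1) := by nlinarith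
  have h2 : p * (2 * j + 1) ≤ L + 2 * p - 1 := by nlinarith
  have hqpos : 0 < 2 * j + 1 := by
    by_contra hcon
    push Not at hcon
    nlinarith
  have h3 : 2 * (2 * j + 1) ≤ U - L - 2 * p + 1 := by
    by_contra hcon
    push Not at hcon
    nlinarith
  have hp2 : Odd (p + 2) := by
    obtain ⟨c, rfl⟩ := hp
    exact ⟨c + 1, by ring⟩
  have e1 : g (p * (2 * j + 1)) = e := hc _ (hp.mul hq) h1 (by nlinarith)
  have e2 : g ((p + 2) * (2 * j + 1)) = e := hc _ (hp2.mul hq) (by nlinarith) (by nlinarith)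
  rw [hg _ _ hp hq] at e1
  rw [hg _ _ hp2 hq] at e2
  have := e1.trans e2.symm
  exact mul_right_cancel this

/-- If `g` is constant on the odd integers of a window `[L, U]` which is wide enough, then `g 3 = 1`. -/
lemma three_of_const (hg : OddMul g) {L U : ℤ} {e : ℤˣ} (hL : 1 ≤ L)
    (hc : ∀ n : ℤ, Odd n → L ≤ n → n ≤ U → g n = e) {p : ℤ} (hp : Odd p) (hp0 : 1 ≤ p)
    (hQ1 : 2 * p ^ 2 - (U - L - 3) * p + 2 * (L - 1) ≤ 0)
    (hQ3 : 2 * (3 * p) ^ 2 - (U - L - 3) * (3 * p) + 2 * (L - 1) ≤ 0) : g 3 = 1 := by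
  have hstep : ∀ a : ℤ, Odd a → p ≤ a → a + 2 ≤ 3 * p → g a = g (a + 2) := by
    intro a ha h1 h2
    refine chain_step hg hL hc ha (by omega) ?_
    have h3 : 0 ≤ (a - p) * (3 * p - a) := mul_nonneg (by omega) (by omega)
    -- convexity
    have h4 : p * (2 * a ^ 2 - (U - L - 3) * a + 2 * (L - 1)) ≤ 0 := by
      -- a = ((3p - a) p + (a - p) 3p) / (2p)
      nlinarith [mul_nonneg (by omega : 0 ≤ 3 * p - a) (by linarith :
          0 ≤ -(2 * p ^ 2 - (U - L - 3) * p + 2 * (L - 1))),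
        mul_nonneg (by omega : 0 ≤ a - p) (by linarith :
          0 ≤ -(2 * (3 * p) ^ 2 - (U - L - 3) * (3 * p) + 2 * (L - 1)))]
    by_contra hcon
    push Not at hcon
    nlinarith
  have h3p : Odd (3 * p) := (by decide : Odd (3 : ℤ)).mul hp
  have h := const_of_steps g hstep p (3 * p) hp h3p le_rfl (by omega) le_rfl
  rw [hg _ _ (by decide) hp] at h
  exact (mul_eq_right.mp h.symm)

end Pool.Agent.OddParity
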