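import Mathlib

set_option autoImplicit false

/-! # Computing the parity of the number of prime factors -/

namespace Pool.Agent.OddParity

open ArithmeticFunction

/-- Parity of the number of prime factors by trial division with fuel. -/
def om : ℕ → ℕ → ℕ → Option Bool
  | 0, _, _ => none
  | f + 1, d, n =>
    if n < d * d then some (decide (1 < n))
    else if n % d = 0 then (om f d (n / d)).map not
    else om f (d + 2) n

lemma om_sound : ∀ (f d n : ℕ) (b : Bool), 3 ≤ d → Odd d → 0 < n → Odd n →
    (∀ p : ℕ, p.Prime → p ∣ n → d ≤ p) → om f d n = some b →
    (b = true ↔ Odd (cardFactors n)) := by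
  intro f
  induction f with
  | zero => intro d n b _ _ _ _ _ h; simp [om] at h
  | succ f ih =>
    intro d n b hd hdo hn hno hp h
    rw [om] at h
    by_cases h1 : n < d * d
    · rw [if_pos h1] at h
      simp only [Option.some.injEq] at h
      rw [← h]
      by_cases h2 : 1 < n
      · have hprime : n.Prime := by
          by_contra hcon
          have h3 := Nat.minFac_sq_le_self hn hcon
          have h4 := hp n.minFac (Nat.minFac_prime (by omega)) (Nat.minFac_dvd n)
          have h5 : d * d ≤ n.minFac ^ 2 := by rw [pow_two]; exact Nat.mul_le_mul h4 h4
          omega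
        simp [h2, cardFactors_apply_prime hprime]
      · have : n = 1 := by omega
        subst this
        simp
    · rw [if_neg h1] at h
      by_cases h2 : n % d = 0
      · rw [if_pos h2] at h
        have hdn : d ∣ n := Nat.dvd_of_mod_eq_zero h2
        have hdp : d.Prime := by
          have h4 := hp d.minFac (Nat.minFac_prime (by omega)) ((Nat.minFac_dvd d).trans hdn)
          have h5 := Nat.minFac_le (by omega : 0 < d)
          have h6 : d.minFac = d := le_antisymm h5 h4
          rw [← h6]
          exact Nat.minFac_prime (by omega)
        obtain ⟨m, rfl⟩ := hdn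
        rw [Nat.mul_div_cancel_left m (by omega)] at h
        have hm0 : 0 < m := Nat.pos_of_mul_pos_left hn |> fun h => by
          rcases Nat.eq_zero_or_pos m with h0 | h0
          · subst h0; simp at hn
          · exact h0
        have hmo : Odd m := (Nat.odd_mul.mp hno).2
        cases hc : om f d m with
        | none => rw [hc] at h; simp at h
        | some b' =>
          rw [hc] at h
          simp only [Option.map_some, Option.some.injEq] at h
          have := ih d m b' hd hdo hm0 hmo (fun p pp pd => hp p pp (pd.mul_left d)) hc
          rw [cardFactors_mul (by omega) (by omega), cardFactors_apply_prime hdp, ← h]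
          cases b' with
          | true =>
            have h7 : Odd (cardFactors m) := this.mp rfl
            simp only [Bool.not_true, Bool.false_eq_true, false_iff, Nat.not_odd_iff_even]
            rw [add_comm]
            exact h7.add_one
          | false =>
            have h7 : ¬ Odd (cardFactors m) := fun h8 => by simpa using this.mpr h8
            rw [Nat.not_odd_iff_even] at h7
            simp only [Bool.not_false, true_iff]
            rw [add_comm]
            exact h7.add_one
      · rw [if_neg h2] at h
        refine ih (d + 2) n b (by omega) (hdo.add_even even_two) hn hno ?_ h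
        intro p pp pd
        have h3 := hp p pp pd
        have h4 : p ≠ d := by
          rintro rfl
          exact h2 (Nat.mod_eq_zero_of_dvd pd)
        have h5 : Odd p := hno.of_dvd_nat pd
        obtain ⟨x, hx⟩ := h5
        obtain ⟨y, hy⟩ := hdo
        omega

lemma om_spec {f n : ℕ} {b : Bool} (hn : 0 < n) (hno : Odd n) (h : om f 3 n = some b) :
    (b = true ↔ Odd (cardFactors n)) := by
  refine om_sound f 3 n b le_rfl (by decide) hn hno ?_ h
  intro p pp pd
  have h5 : Odd p := hno.of_dvd_nat pd
  have := pp.two_le
  obtain ⟨x, hx⟩ := h5
  omega

/-- Does `(2 k - a) (2 k + a)` have an odd number of prime factors (and is it in the interval)? -/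
def good (f k a : ℕ) : Bool :=
  decide (a * a < 4 * k - 1) &&
    (match om f 3 (2 * k - a), om f 3 (2 * k + a) with
      | some x, some y => x != y
      | _, _ => false)

lemma good_spec {f k a : ℕ} (hk : 1 ≤ k) (ha : a % 2 = 1) (h : good f k a = true) :
    ∃ n : ℕ, Odd n ∧ (2 * k - 1) ^ 2 < n ∧ n < (2 * k + 1) ^ 2 ∧ Odd (cardFactors n) := by
  unfold good at h
  rw [Bool.and_eq_true, decide_eq_true_eq] at h
  obtain ⟨h1, h2⟩ := h
  have hak : a < 2 * k := by
    by_contra hcon
    push Not at hcon
    nlinarith [Nat.sub_le (4 * k) 1]
  obtain ⟨j, hj⟩ : ∃ j, 2 * k = a + j := ⟨2 * k - a, by omega⟩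
  have hj1 : 2 * k - a = j := by omega
  have hjo : Odd j := by
    rw [Nat.odd_iff]; omega
  have hjpos : 0 < j := by omega
  have hao : Odd (2 * k + a) := by
    rw [Nat.odd_iff]; omega
  rw [hj1] at h2
  cases hx : om f 3 j with
  | none => rw [hx] at h2; simp at h2
  | some x =>
    cases hy : om f 3 (2 * k + a) with
    | none => rw [hx, hy] at h2; simp at h2
    | some y =>
      rw [hx, hy] at h2
      have sx := om_spec hjpos hjo hx
      have sy := om_spec (by omega) hao hy
      refine ⟨j * (2 * k + a), hjo.mul hao, ?_, ?_, ?_⟩
      · obtain ⟨m, rfl⟩ : ∃ m, k = m + 1 := ⟨k - 1, by omega⟩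
        have e : 2 * (m + 1) - 1 = 2 * m + 1 := by omega
        rw [e]
        have e2 : 4 * (m + 1) - 1 = 4 * m + 3 := by omega
        rw [e2] at h1
        have e3 : j = 2 * m + 2 - a := by omega
        zify [hak.le] at *
        nlinarith
      · nlinarith
      · rw [cardFactors_mul (by omega) (by omega)]
        cases x with
        | true =>
          cases y with
          | true => simp at h2
          | false =>
            have a1 : Odd (cardFactors j) := sx.mp rfl
            have a2 : ¬ Odd (cardFactors (2 * k + a)) := fun h8 => by simpa using sy.mpr h8
            rw [Nat.not_odd_iff_even] at a2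
            exact a1.add_even a2
        | false =>
          cases y with
          | true =>
            have a1 : ¬ Odd (cardFactors j) := fun h8 => by simpa using sx.mpr h8
            have a2 : Odd (cardFactors (2 * k + a)) := sy.mp rfl
            rw [Nat.not_odd_iff_even] at a1
            exact a1.add_odd a2
          | false => simp at h2

end Pool.Agent.OddParity
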