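import Mathlib

set_option autoImplicit false

/-!
# Completely multiplicative signs on the odd integers between two consecutive odd squares

`g` is a function with values `1, -1` which is multiplicative on the odd integers, `K = 2 k` is even, and
`Flat g K` says that `g` is `1` at every odd integer of the closed interval `[(K-1)^2, (K+1)^2]`.
-/

namespace Pool.Agent.OddParity

/-- `g` is multiplicative on the odd integers. -/
def OddMul (g : ℤ → ℤˣ) : Prop := ∀ a b : ℤ, Odd a → Odd b → g (a * b) = g a * g b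

/-- `g` is `1` at all odd integers of `[(K-1)^2, (K+1)^2]`. -/
def Flat (g : ℤ → ℤˣ) (K : ℤ) : Prop :=
  ∀ n : ℤ, Odd n → (K - 1) ^ 2 ≤ n → n ≤ (K + 1) ^ 2 → g n = 1

variable {g : ℤ → ℤˣ} {K : ℤ}

lemma eq_of_mul_eq_one (a b : ℤˣ) (h : a * b = 1) : a = b := by
  have hb : b * b = 1 := Int.units_mul_self b
  calc a = a * (b * b) := by rw [hb, mul_one]
    _ = (a * b) * b := by rw [mul_assoc]
    _ = b := by rw [h, one_mul]

/-- Two odd integers whose product lies in the interval have the same sign. -/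
lemma pair (hg : OddMul g) (hF : Flat g K) {u v : ℤ} (hu : Odd u) (hv : Odd v)
    (h1 : (K - 1) ^ 2 ≤ u * v) (h2 : u * v ≤ (K + 1) ^ 2) : g u = g v := by
  apply eq_of_mul_eq_one
  rw [← hg u v hu hv]
  exact hF _ (hu.mul hv) h1 h2

lemma step (hg : OddMul g) (hF : Flat g K) {u v : ℤ} (hu : Odd u) (hv : Odd v) (hv0 : 0 ≤ v)
    (h1 : (K - 1) ^ 2 ≤ u * v) (h2 : (u + 2) * v ≤ (K + 1) ^ 2) : g u = g (u + 2) := by
  have e1 := pair hg hF hu hv h1 (by nlinarith)
  have hu2 : Odd (u + 2) := by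
    obtain ⟨m, rfl⟩ := hu
    exact ⟨m + 1, by ring⟩
  have e2 := pair hg hF hu2 hv (by nlinarith) h2
  rw [e1, e2]

/-- The basic step with `u = K + a`, `v = K - a + 2 r`. -/
lemma step_r (hg : OddMul g) (hF : Flat g K) (hK : Even K) {a : ℤ} (r : ℤ) (ha : Odd a)
    (hv0 : 0 ≤ K - a + 2 * r)
    (h1 : (a - r) ^ 2 ≤ (r + 1) * (2 * K + r - 1))
    (h2 : r * (2 * K + r + 2) ≤ (a - r + 1) ^ 2) : g (K + a) = g (K + a + 2) := by
  have hu : Odd (K + a) := hK.add_odd ha
  have hv : Odd (K - a + 2 * r) := by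
    have : Odd (K - a) := hK.sub_odd ha
    exact this.add_even (even_two_mul r)
  refine step hg hF hu hv hv0 ?_ ?_
  · nlinarith
  · nlinarith

/-- An odd integer has square `1` modulo `8`. -/
lemma odd_sq_mod {a : ℤ} (ha : Odd a) : ∃ m : ℤ, a ^ 2 = 8 * m + 1 := by
  obtain ⟨b, rfl⟩ := ha
  obtain ⟨c, hc⟩ := Int.even_mul_succ_self b
  refine ⟨c, ?_⟩
  have : b * (b + 1) = 2 * c := by rw [hc]; ring
  nlinarith

/-- The step across the second cut, `K + 1 = m ^ 2`. -/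
lemma step_square (hg : OddMul g) (hF : Flat g K) (hK : Even K) {m : ℤ} (hm : m ^ 2 = K + 1)
    (hK8 : 8 ≤ K) : g (m ^ 2 + 2 * m) = g (m ^ 2 + 2 * m + 2) := by
  have hmo : Odd m := by
    have : Odd (m ^ 2) := by rw [hm]; exact hK.add_one
    exact (Int.odd_pow' (by norm_num : (2 : ℕ) ≠ 0)).mp this
  have hm9 : 9 ≤ m ^ 2 := by omega
  have hm3 : 3 ≤ m ∨ m ≤ -3 := by
    by_contra hcon
    push Not at hcon
    have h1 : m ≤ 2 := by omega
    have h2 : -2 ≤ m := by omega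
    nlinarith
  have hKm : K = m ^ 2 - 1 := by omega
  have ho2 : Odd (m + 2) := by
    obtain ⟨c, rfl⟩ := hmo
    exact ⟨c + 1, by ring⟩
  have ho2' : Odd (m - 2) := by
    obtain ⟨c, rfl⟩ := hmo
    exact ⟨c - 1, by ring⟩
  -- g (K - 3) = g (K - 1) = g (K + 1)
  have s1 : g (K + (-3)) = g (K + (-3) + 2) :=
    step_r hg hF hK 0 (by decide) (by omega) (by nlinarith) (by nlinarith)
  have s2 : g (K + (-1)) = g (K + (-1) + 2) :=
    step_r hg hF hK 0 (by decide) (by omega) (by nlinarith) (by nlinarith)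
  have s3 : g (m ^ 2) = 1 := by
    rw [pow_two, hg m m hmo hmo]
    exact Int.units_mul_self _
  have s4 : g ((m - 2) * (m + 2)) = 1 := by
    have e1 : (m - 2) * (m + 2) = K + (-3) := by rw [hKm]; ring
    have e2 : K + (-3) + 2 = K + (-1) := by ring
    have e3 : K + (-1) + 2 = m ^ 2 := by rw [hKm]; ring
    rw [e1, s1, e2, s2, e3, s3]
  have s5 : g (m - 2) = g (m + 2) := by
    apply eq_of_mul_eq_one
    rw [← hg _ _ ho2' ho2]
    exact s4
  have s6 : g (m ^ 2 + 2 * m) = g (m ^ 2 - 2 * m) := by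
    have e1 : m ^ 2 + 2 * m = m * (m + 2) := by ring
    have e2 : m ^ 2 - 2 * m = m * (m - 2) := by ring
    rw [e1, e2, hg _ _ hmo ho2, hg _ _ hmo ho2', s5]
  have s7 : g (m ^ 2 - 2 * m) = g (m ^ 2 + 2 * m + 2) := by
    apply pair hg hF
    · have e2 : m ^ 2 - 2 * m = m * (m - 2) := by ring
      rw [e2]; exact hmo.mul ho2'
    · have e1 : m ^ 2 + 2 * m + 2 = m * (m + 2) + 2 := by ring
      rw [e1]
      obtain ⟨c, hc⟩ := hmo.mul ho2
      exact ⟨c + 1, by rw [hc]; ring⟩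
    · rw [hKm]
      rcases hm3 with h | h
      · nlinarith
      · nlinarith
    · rw [hKm]
      rcases hm3 with h | h
      · nlinarith
      · nlinarith
  rw [s6, s7]

/-- All steps `K + a → K + a + 2` with `(a - 2) ^ 2 ≤ 6 K + 3`, except the first cut `a ^ 2 = 2 K + 1`. -/
lemma region_step (hg : OddMul g) (hF : Flat g K) (hK : Even K) (hK8 : 30 ≤ K) {a : ℤ} (ha : Odd a)
    (h1 : (a - 2) ^ 2 ≤ 6 * K + 3) (h2 : a ^ 2 ≠ 2 * K + 1) : g (K + a) = g (K + a + 2) := by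
  obtain ⟨s, hs⟩ := odd_sq_mod ha
  obtain ⟨b, hb⟩ := ha
  have ha' : Odd a := ⟨b, hb⟩
  obtain ⟨c, hc⟩ := hK
  have hK' : Even K := ⟨c, hc⟩
  have hpos : 0 ≤ K - a := by nlinarith [sq_nonneg (a - K)]
  by_cases hA : a ^ 2 ≤ 2 * K - 1
  · exact step_r hg hF hK' 0 ha' (by omega) (by nlinarith) (by nlinarith [sq_nonneg (a + 1)])
  have hA3 : 2 * K + 3 ≤ a ^ 2 := by omega
  have hb2 : (a - 1) ^ 2 = 4 * b ^ 2 := by rw [hb]; ring
  by_cases hB : (a - 1) ^ 2 ≤ 4 * K
  · exact step_r hg hF hK' 1 ha' (by omega) (by nlinarith) (by nlinarith)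
  by_cases hC : (a - 1) ^ 2 = 4 * K + 4
  · have hm : b ^ 2 = K + 1 := by omega
    have := step_square hg hF hK' hm (by omega)
    have e1 : K + a = b ^ 2 + 2 * b := by rw [hm, hb]; ring
    rw [e1]; exact this
  have hC8 : 4 * K + 8 ≤ (a - 1) ^ 2 := by omega
  exact step_r hg hF hK' 2 ha' (by omega) (by nlinarith) (by nlinarith)

/-- From steps to constancy. -/
lemma const_of_steps (h : ℤ → ℤˣ) {A B : ℤ}
    (hs : ∀ a, Odd a → A ≤ a → a + 2 ≤ B → h a = h (a + 2)) :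
    ∀ a b : ℤ, Odd a → Odd b → A ≤ a → a ≤ b → b ≤ B → h a = h b := by
  intro a b ha hb hAa hab hbB
  obtain ⟨x, hx⟩ := ha
  obtain ⟨y, hy⟩ := hb
  obtain ⟨n, hn⟩ : ∃ n : ℕ, y = x + n := ⟨(y - x).toNat, by omega⟩
  have key : ∀ n : ℕ, 2 * (x + n) + 1 ≤ B → h (2 * x + 1) = h (2 * (x + n) + 1) := by
    intro n
    induction n with
    | zero => intro _; simp
    | succ n ih =>
      intro hle
      have h1 : 2 * (x + (n : ℤ)) + 1 ≤ B := by push_cast at hle; omega
      rw [ih h1]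
      have e : 2 * (x + ((n + 1 : ℕ) : ℤ)) + 1 = (2 * (x + (n : ℤ)) + 1) + 2 := by push_cast; ring
      rw [e]
      apply hs
      · exact ⟨x + n, by ring⟩
      · omega
      · rw [← e]; exact hle
  rw [hx, hy, hn]
  exact key n (by rw [← hn, ← hy]; exact hbB)

end Pool.Agent.OddParity
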