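import Pool.Agent.OddParity.NoAlign

set_option autoImplicit false

/-! # Crossing the cuts of a block without defects -/

namespace Pool.Agent.OddParity

variable {g : ℤ → ℤˣ} {K : ℤ}

/-- `g` is constant on a range of a good block without cuts. -/
lemma range_eq (hK : Even K) {A s : ℤ} (hbl : Block g K A s) {n m : ℤ} (hn : Odd n) (hm : Odd m)
    (hnm : n ≤ m) (hA : K + A ≤ n) (hB : m < K + A + 90 * s)
    (hnc : ∀ a : ℤ, Odd a → n ≤ K + a → K + a + 2 ≤ m → ¬ Cut K a) : g n = g m := by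
  have hno : Odd (n - K) := hn.sub_even hK
  have hmo : Odd (m - K) := hm.sub_even hK
  have e : g n = g (K + (n - K)) := by congr 1; ring
  have e' : g m = g (K + (m - K)) := by congr 1; ring
  rw [e, e']
  refine const_of_steps (fun a => g (K + a)) (A := n - K) (B := m - K) ?_ (n - K) (m - K) hno hmo
    le_rfl (by omega) le_rfl
  intro a ha h1 h2
  show g (K + a) = g (K + (a + 2))
  rw [hbl a ha (by omega) (by omega) (hnc a ha (by omega) (by omega)), add_assoc]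

/-- Real inequalities for the sizes. -/
lemma size_aux {w Y : ℝ} (hw0 : 0 < w) (hY : 1 ≤ Y) (hbig : 10 ^ 6 * Y ^ 2 ≤ w) :
    10 ^ 6 ≤ w ∧ 10 ^ 6 * Y ≤ w ∧ 10 ^ 6 * w ≤ w ^ 2 ∧
      1000 * Y ^ 2 * ((12 * w + 4 * Y + 12) + Y ^ 2) ≤ w ^ 2 := by
  have hYY : Y ≤ Y ^ 2 := by nlinarith
  have h1 : 10 ^ 6 ≤ w := by nlinarith
  have h2 : 10 ^ 6 * Y ≤ w := by nlinarith
  have h3 : 10 ^ 6 * w ≤ w ^ 2 := by nlinarith
  refine ⟨h1, h2, h3, ?_⟩
  have h4 : 4 * Y + 12 + Y ^ 2 ≤ w := by nlinarith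
  have h5 : (12 * w + 4 * Y + 12) + Y ^ 2 ≤ 13 * w := by linarith
  have h6 : 1000 * Y ^ 2 * ((12 * w + 4 * Y + 12) + Y ^ 2) ≤ 1000 * Y ^ 2 * (13 * w) :=
    mul_le_mul_of_nonneg_left h5 (by positivity)
  nlinarith

lemma cross (hg : OddMul g) (hK : Even K) {A s a0 : ℤ} {w Y : ℝ} (hw0 : 0 < w)
    (hw : w ^ 4 = (K : ℝ)) (hY : 1 ≤ Y) (hbig : 10 ^ 6 * Y ^ 2 ≤ w) (hs1 : w ^ 2 ≤ 10 * (s : ℝ))
    (hA : 0 ≤ A) (hAY : (A : ℝ) + 90 * (s : ℝ) ≤ Y * w ^ 2) (hbl : Block g K A s)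
    (ha0 : Odd a0) (hcut : Cut K a0) (h1 : A + s ≤ a0) (h2 : a0 ≤ A + 49 * s) :
    g (K + a0) = g (K + a0 + 2) := by
  obtain ⟨z1, z2, z3, z4⟩ := size_aux hw0 hY hbig
  have hw2 : 0 < w ^ 2 := by positivity
  have hKr : (0 : ℝ) < K := by rw [← hw]; positivity
  have hK0 : 0 < K := by exact_mod_cast hKr
  have hsR : (0 : ℝ) < s := by linarith
  have hs0 : 0 < s := by exact_mod_cast hsR
  have ha0p : 0 < a0 := by omega
  have ha0R : (a0 : ℝ) ≤ Y * w ^ 2 := by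
    have : (a0 : ℝ) ≤ A + 49 * s := by exact_mod_cast h2
    linarith
  have ha0R0 : (0 : ℝ) < a0 := by exact_mod_cast ha0p
  -- the choice of c and h
  obtain ⟨c1, hc10, hc11, hc12⟩ := exists_isqrt (K + a0 + 2) (by omega)
  obtain ⟨c, hc⟩ : ∃ c : ℤ, c = c1 + 1 := ⟨_, rfl⟩
  have hc1 : c1 = c - 1 := by omega
  rw [← hc] at hc12
  rw [hc1] at hc11 hc10
  obtain ⟨h, hh0, hodd, hhA, hhB⟩ := exists_sq_le c (c ^ 2 - (K + a0 + 2)) (by omega)
  have hcK : w ^ 2 ≤ c := by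
    have h3 : (K : ℝ) ≤ (c : ℝ) ^ 2 := by
      have : K ≤ c ^ 2 := by omega
      exact_mod_cast this
    rw [← hw] at h3
    have h4 : (w ^ 2) ^ 2 ≤ (c : ℝ) ^ 2 := by
      have e : (w ^ 2) ^ 2 = w ^ 4 := by ring
      rw [e]; exact h3
    have hcR : (0 : ℝ) ≤ c := by
      have : 0 ≤ c := by omega
      exact_mod_cast this
    exact le_of_sq_le_sq h4 hcR
  have hcU : (c : ℝ) ≤ w ^ 2 + Y + 1 := by
    have h3 : ((c : ℝ) - 1) ^ 2 ≤ K + a0 + 2 := by exact_mod_cast hc11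
    have h4 : ((c : ℝ) - 1) ^ 2 ≤ (w ^ 2 + Y) ^ 2 := by
      have e : (w ^ 2 + Y) ^ 2 = w ^ 4 + 2 * (Y * w ^ 2) + Y ^ 2 := by ring
      have h5 : (2 : ℝ) ≤ Y * w ^ 2 := by nlinarith
      rw [e, hw]
      nlinarith
    have h5 := le_of_sq_le_sq h4 (by positivity)
    linarith
  have hhR0 : (0 : ℝ) ≤ h := by exact_mod_cast hh0
  have hhR : (h : ℝ) ≤ 2 * w := by
    have h3 : h ^ 2 ≤ 2 * c - 1 := by nlinarith
    have h4 : (h : ℝ) ^ 2 ≤ 2 * c - 1 := by exact_mod_cast h3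
    have h5 : (h : ℝ) ^ 2 ≤ (2 * w) ^ 2 := by
      have e : (2 * w) ^ 2 = 4 * w ^ 2 := by ring
      rw [e]; linarith
    exact le_of_sq_le_sq h5 (by positivity)
  have hsh : 80 * h + 1000 ≤ s := by
    have : (80 : ℝ) * h + 1000 ≤ s := by linarith
    exact_mod_cast this
  have hcs : 4 * c + 4 * h + 20 ≤ 41 * s := by
    have : (4 : ℝ) * c + 4 * h + 20 ≤ 41 * s := by linarith
    exact_mod_cast this
  -- the error bound
  set E : ℝ := 12 * w + 4 * Y + 12 with hE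
  have hE0 : 0 ≤ E := by positivity
  have nocut : ∀ (a j : ℤ), Odd a → A ≤ a → a + 2 < A + 90 * s → 0 ≤ j → j ≤ 2 →
      |a - a0 - 2 * j * c| ≤ 6 * h + 8 → Cut K a → j = 0 ∧ a = a0 := by
    intro a j ha haA haB hj0 hj2 hd hca
    refine no_align hw0 hw hY hE0 z4 ha0 ha ha0p ?_ ha0R ?_ hcut hca hj0 hj2 ?_
    · obtain ⟨x, hx⟩ := ha; omega
    · have : (a : ℝ) + 2 < A + 90 * s := by exact_mod_cast haB
      linarith
    · have hdR : |(a : ℝ) - a0 - 2 * j * c| ≤ 6 * h + 8 := by exact_mod_cast hd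
      have hjR0 : (0 : ℝ) ≤ j := by exact_mod_cast hj0
      have hjR2 : (j : ℝ) ≤ 2 := by exact_mod_cast hj2
      have e : (a : ℝ) - a0 - 2 * j * w ^ 2 = ((a : ℝ) - a0 - 2 * j * c) + 2 * (j * (c - w ^ 2)) := by
        ring
      rw [abs_le] at hdR
      have h3 : 0 ≤ (j : ℝ) * (c - w ^ 2) := mul_nonneg hjR0 (by linarith)
      have h4 : (j : ℝ) * (c - w ^ 2) ≤ 2 * (Y + 1) :=
        mul_le_mul hjR2 (by linarith) (by linarith) (by norm_num)
      rw [e, abs_le]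
      constructor <;> linarith
  obtain ⟨o1, o2, o3, o4⟩ := corner_odd hodd
  have hodd2 : Odd (c + (h + 2)) := by
    have : c + (h + 2) = c + h + 2 := by ring
    rw [this]; exact hodd.add_even even_two
  obtain ⟨o1', o2', o3', o4'⟩ := corner_odd hodd2
  have hu0 : Odd (K + a0) := hK.add_odd ha0
  have hu2 : Odd (K + a0 + 2) := hu0.add_even even_two
  have x1 : (h + 2) ^ 2 = h ^ 2 + 4 * h + 4 := by ring
  have x2 : (c + 2) ^ 2 = c ^ 2 + 4 * c + 4 := by ring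
  -- order of the corners
  have y1 : K + a0 + 2 ≤ c ^ 2 - h ^ 2 := by omega
  have y2 : c ^ 2 - (h + 2) ^ 2 ≤ K + a0 := by
    have : c ^ 2 - (h + 2) ^ 2 < K + a0 + 2 := by omega
    obtain ⟨p, hp⟩ := o1'
    obtain ⟨q, hq⟩ := hu0
    omega
  have y3 : c ^ 2 - h ^ 2 ≤ K + a0 + 4 * h + 4 := by omega
  have y4 : K + a0 - 4 * h - 2 ≤ c ^ 2 - (h + 2) ^ 2 := by omega
  -- bottoms
  have b1 : g (c ^ 2 - (h + 2) ^ 2) = g (K + a0) := by
    refine range_eq hK hbl o1' hu0 y2 (by omega) (by omega) ?_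
    intro a ha p1 p2 hca
    obtain ⟨-, hj⟩ := nocut a 0 ha (by omega) (by omega) le_rfl (by norm_num)
      (by rw [abs_le]; constructor <;> omega) hca
    omega
  have b2 : g (K + a0 + 2) = g (c ^ 2 - h ^ 2) := by
    refine range_eq hK hbl hu2 o1 y1 (by omega) (by omega) ?_
    intro a ha p1 p2 hca
    obtain ⟨-, hj⟩ := nocut a 0 ha (by omega) (by omega) le_rfl (by norm_num)
      (by rw [abs_le]; constructor <;> omega) hca
    omega
  -- middle corners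
  have m1 : g (c ^ 2 - (h + 2) ^ 2 + 2 * c - 2 * (h + 2)) = g (c ^ 2 - h ^ 2 + 2 * c - 2 * h) := by
    refine range_eq hK hbl o3' o3 (by omega) (by omega) (by omega) ?_
    intro a ha p1 p2 hca
    obtain ⟨hj, -⟩ := nocut a 1 ha (by omega) (by omega) (by norm_num) (by norm_num)
      (by rw [abs_le]; constructor <;> omega) hca
    omega
  have m2 : g (c ^ 2 - h ^ 2 + 2 * c - 2 * h) = g (c ^ 2 - h ^ 2 + 2 * c + 2 * h) := by
    refine range_eq hK hbl o3 o4 (by omega) (by omega) (by omega) ?_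
    intro a ha p1 p2 hca
    obtain ⟨hj, -⟩ := nocut a 1 ha (by omega) (by omega) (by norm_num) (by norm_num)
      (by rw [abs_le]; constructor <;> omega) hca
    omega
  have m3 : c ^ 2 - (h + 2) ^ 2 + 2 * c + 2 * (h + 2) = c ^ 2 - h ^ 2 + 2 * c - 2 * h := by
    rw [x1]; ring
  -- top corners
  have t1 : g ((c + 2) ^ 2 - (h + 2) ^ 2) = g ((c + 2) ^ 2 - h ^ 2) := by
    refine range_eq hK hbl o2' o2 (by omega) (by omega) (by omega) ?_
    intro a ha p1 p2 hca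
    obtain ⟨hj, -⟩ := nocut a 2 ha (by omega) (by omega) (by norm_num) (by norm_num)
      (by rw [abs_le]; constructor <;> omega) hca
    omega
  -- the two rectangles
  have r1 : g (c ^ 2 - h ^ 2) = g ((c + 2) ^ 2 - h ^ 2) :=
    rect_ch hg hodd (e := g (c ^ 2 - h ^ 2 + 2 * c - 2 * h)) rfl m2.symm
  have r2 : g (c ^ 2 - (h + 2) ^ 2) = g ((c + 2) ^ 2 - (h + 2) ^ 2) :=
    rect_ch hg hodd2 (e := g (c ^ 2 - h ^ 2 + 2 * c - 2 * h)) m1 (by rw [m3])
  rw [← b1, r2, t1, ← r1, b2]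

end Pool.Agent.OddParity
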