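import Pool.Agent.OddParity.Special

set_option autoImplicit false

/-! # Existence of the rectangles which bridge the first cut -/

namespace Pool.Agent.OddParity

lemma exists_sq_ge (c A : ℤ) (hA : 0 ≤ A) :
    ∃ h : ℤ, 1 ≤ h ∧ Odd (c + h) ∧ A ≤ h ^ 2 ∧ (h - 2) ^ 2 ≤ A + 1 := by
  obtain ⟨s, hs0, hs1, hs2⟩ := exists_isqrt A hA
  rcases Int.even_or_odd (c + s) with hev | hod
  · refine ⟨s + 1, by omega, ?_, by omega, ?_⟩
    · rw [← add_assoc]; exact hev.add_one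
    · rcases eq_or_lt_of_le hs0 with h | h
      · rw [← h]; norm_num; exact hA
      · nlinarith
  · refine ⟨s + 2, by omega, ?_, by nlinarith, ?_⟩
    · rw [← add_assoc]; exact hod.add_even even_two
    · have : (s + 2 - 2) ^ 2 = s ^ 2 := by ring
      omega

lemma exists_sq_le (c A : ℤ) (hA : 1 ≤ A) :
    ∃ h : ℤ, 0 ≤ h ∧ Odd (c + h) ∧ h ^ 2 ≤ A ∧ A < (h + 2) ^ 2 := by
  obtain ⟨s, hs0, hs1, hs2⟩ := exists_isqrt A (by omega)
  have hs : 1 ≤ s := by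
    by_contra hcon
    push Not at hcon
    have : s = 0 := by omega
    rw [this] at hs2
    norm_num at hs2
    omega
  rcases Int.even_or_odd (c + s) with hev | hod
  · refine ⟨s - 1, by omega, ?_, by nlinarith, ?_⟩
    · have : c + (s - 1) = c + s - 1 := by ring
      rw [this]; exact hev.sub_odd odd_one
    · have : (s - 1 + 2) ^ 2 = (s + 1) ^ 2 := by ring
      omega
  · exact ⟨s, hs0, hod, hs1, by nlinarith⟩

/-- Size of `c` when `c ^ 2` is the first square after `K - y`. -/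
lemma c_bounds {K y c : ℤ} (hy : y ^ 2 = 2 * K + 1) (hy0 : 2700 ≤ y) (hc0 : 0 ≤ c)
    (h1 : K - y ≤ c ^ 2) (h2 : (c - 1) ^ 2 ≤ K - y + 2) :
    7071 * y - 7072 ≤ 10000 * c ∧ 10000 * c ≤ 7072 * y + 10000 := by
  constructor
  · by_contra hcon
    push Not at hcon
    have h3 : (10000 * c) ^ 2 ≤ (7071 * y - 7072) ^ 2 := by
      apply pow_le_pow_left₀ (by omega)
      omega
    nlinarith
  · by_contra hcon
    push Not at hcon
    have h3 : (7072 * y) ^ 2 ≤ (10000 * (c - 1)) ^ 2 := by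
      apply pow_le_pow_left₀ (by omega)
      omega
    nlinarith

lemma h_bound {y h A : ℤ} (hy0 : 2700 ≤ y) (hA : 10000 * A ≤ 14144 * y + 20000)
    (h1 : (h - 2) ^ 2 ≤ A + 1) : 1000 * h ≤ 24 * y + 500 := by
  by_contra hcon
  push Not at hcon
  have h3 : (24 * y - 1500) ^ 2 ≤ (1000 * (h - 2)) ^ 2 := by
    apply pow_le_pow_left₀ (by omega)
    omega
  nlinarith

/-- The rectangle which joins the segments one and three. -/
lemma exists_rect_b {K y T : ℤ} (hy : y ^ 2 = 2 * K + 1) (hy0 : 2700 ≤ y)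
    (hT : 10000 * T ≤ 17321 * y + 10000) :
    ∃ c h : ℤ, 0 ≤ h ∧ h ≤ c ∧ Odd (c + h) ∧ c ^ 2 - h ^ 2 ≤ K - y ∧
      1000 * K ≤ 1000 * (c ^ 2 - h ^ 2) + 1100 * y ∧
      K + T + 2 ≤ (c + 2) ^ 2 - h ^ 2 ∧ 1000 * ((c + 2) ^ 2 - h ^ 2) ≤ 1000 * K + 1900 * y ∧
      K - y + 2 ≤ c ^ 2 - h ^ 2 + 2 * c - 2 * h ∧ c ^ 2 - h ^ 2 + 2 * c + 2 * h ≤ K + y := by
  have hKy : 0 ≤ K - y - 1 := by nlinarith
  obtain ⟨s, hs0, hs1, hs2⟩ := exists_isqrt (K - y - 1) hKy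
  have hc1 : K - y ≤ (s + 1) ^ 2 := by omega
  obtain ⟨h, hh1, hodd, hA1, hA2⟩ := exists_sq_ge (s + 1) ((s + 1) ^ 2 - (K - y)) (by omega)
  have hcb := c_bounds (c := s + 1) hy hy0 (by omega) hc1 (by
    have : (s + 1 - 1) ^ 2 = s ^ 2 := by ring
    omega)
  set c := s + 1 with hc
  have hAle : c ^ 2 - (K - y) ≤ 2 * c - 2 := by
    have : s = c - 1 := by omega
    rw [this] at hs1
    nlinarith
  have hhb := h_bound (A := c ^ 2 - (K - y)) hy0 (by omega) hA2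
  have hsq : (h - 2) ^ 2 = h ^ 2 - 4 * h + 4 := by ring
  have hc4 : (c + 2) ^ 2 = c ^ 2 + 4 * c + 4 := by ring
  refine ⟨c, h, by omega, by omega, hodd, by omega, by omega, by omega, by omega, by omega,
    by omega⟩

/-- The rectangle which joins the segments zero and three. -/
lemma exists_rect_a {K y T : ℤ} (hy : y ^ 2 = 2 * K + 1) (hy0 : 2700 ≤ y)
    (hT : 10000 * T ≤ 17321 * y + 10000) :
    ∃ c h : ℤ, 0 ≤ h ∧ h ≤ c ∧ Odd (c + h) ∧ K - y + 2 ≤ c ^ 2 - h ^ 2 ∧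
      c ^ 2 - h ^ 2 ≤ K + y ∧
      K + T + 2 ≤ (c + 2) ^ 2 - h ^ 2 ∧ 1000 * ((c + 2) ^ 2 - h ^ 2) ≤ 1000 * K + 2100 * y ∧
      K - y + 2 ≤ c ^ 2 - h ^ 2 + 2 * c - 2 * h ∧ c ^ 2 - h ^ 2 + 2 * c + 2 * h ≤ K + y := by
  have hKy : 0 ≤ K - y + 2 := by nlinarith
  obtain ⟨s, hs0, hs1, hs2⟩ := exists_isqrt (K - y + 2) hKy
  have hc1 : K - y ≤ (s + 1) ^ 2 := by omega
  obtain ⟨h, hh1, hodd, hA1, hA2⟩ := exists_sq_le (s + 1) ((s + 1) ^ 2 - (K - y + 2)) (by omega)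
  have hcb := c_bounds (c := s + 1) hy hy0 (by omega) hc1 (by
    have : (s + 1 - 1) ^ 2 = s ^ 2 := by ring
    omega)
  set c := s + 1 with hc
  have hAle : c ^ 2 - (K - y + 2) ≤ 2 * c - 1 := by
    have : s = c - 1 := by omega
    rw [this] at hs1
    nlinarith
  have hhb : 1000 * h ≤ 24 * y + 500 := by
    rcases eq_or_lt_of_le hh1 with h0 | h0
    · omega
    · exact h_bound (A := c ^ 2 - (K - y + 2)) hy0 (by omega) (by nlinarith)
  have hsq : (h + 2) ^ 2 = h ^ 2 + 4 * h + 4 := by ring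
  have hc4 : (c + 2) ^ 2 = c ^ 2 + 4 * c + 4 := by ring
  refine ⟨c, h, by omega, by omega, hodd, by omega, by omega, by omega, by omega, by omega,
    by omega⟩

end Pool.Agent.OddParity
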