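import Pool.Agent.OddParity.Chain

set_option autoImplicit false

/-! # If all steps near `K` are available then `g 3 = 1` -/

namespace Pool.Agent.OddParity

variable {g : ℤ → ℤˣ} {K : ℤ}

lemma exists_isqrt (x : ℤ) (hx : 0 ≤ x) : ∃ s : ℤ, 0 ≤ s ∧ s ^ 2 ≤ x ∧ x < (s + 1) ^ 2 := by
  refine ⟨(Nat.sqrt x.toNat : ℤ), by positivity, ?_, ?_⟩
  · have h := Nat.sqrt_le' x.toNat
    have h2 : ((Nat.sqrt x.toNat ^ 2 : ℕ) : ℤ) ≤ (x.toNat : ℤ) := by exact_mod_cast h
    rw [Int.toNat_of_nonneg hx] at h2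
    push_cast at h2
    exact h2
  · have h := Nat.lt_succ_sqrt' x.toNat
    have h2 : ((x.toNat : ℕ) : ℤ) < (((Nat.sqrt x.toNat).succ ^ 2 : ℕ) : ℤ) := by exact_mod_cast h
    rw [Int.toNat_of_nonneg hx] at h2
    push_cast at h2
    exact h2

lemma quad_aux1 (t S p K : ℤ) (ht : 60 ≤ t) (hS : 2449 * t ≤ 1000 * (S + 1))
    (hK : K ≤ t ^ 2 + 2 * t) (hp1 : 58 * t - 100 ≤ 100 * p) (hp2 : 100 * p ≤ 58 * t + 100) :
    2 * p ^ 2 - (2 * S - 2) * p + 2 * (K + 1 - S) ≤ 0 := by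
  have hp0 : 0 ≤ p := by omega
  have h1 : (2449 * t) * p ≤ 1000 * (S + 1) * p := mul_le_mul_of_nonneg_right hS hp0
  have h2 : 1000 * p ^ 2 - 2449 * t * p + 2000 * p + 1000 * t ^ 2 - 449 * t + 2000 ≤ 0 := by
    have a1 : 0 ≤ (100 * p - 58 * t + 100) * (58 * t + 100 - 100 * p) :=
      mul_nonneg (by omega) (by omega)
    have a2 : 0 ≤ (100 * p - 58 * t + 100) * (t - 60) := mul_nonneg (by omega) (by omega)
    have a3 : 0 ≤ (t - 60) * (t - 60) := mul_nonneg (by omega) (by omega)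
    nlinarith
  nlinarith

lemma quad_aux2 (t S p K : ℤ) (ht : 60 ≤ t) (hS : 2449 * t ≤ 1000 * (S + 1))
    (hK : K ≤ t ^ 2 + 2 * t) (hp1 : 58 * t - 100 ≤ 100 * p) (hp2 : 100 * p ≤ 58 * t + 100) :
    2 * (3 * p) ^ 2 - (2 * S - 2) * (3 * p) + 2 * (K + 1 - S) ≤ 0 := by
  have hp0 : 0 ≤ p := by omega
  have h1 : (2449 * t) * p ≤ 1000 * (S + 1) * p := mul_le_mul_of_nonneg_right hS hp0
  have h2 : 9000 * p ^ 2 - 7347 * t * p + 6000 * p + 1000 * t ^ 2 - 449 * t + 2000 ≤ 0 := by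
    have a1 : 0 ≤ (100 * p - 58 * t + 100) * (58 * t + 100 - 100 * p) :=
      mul_nonneg (by omega) (by omega)
    have a2 : 0 ≤ (58 * t + 100 - 100 * p) * (t - 60) := mul_nonneg (by omega) (by omega)
    have a3 : 0 ≤ (t - 60) * (t - 60) := mul_nonneg (by omega) (by omega)
    nlinarith
  nlinarith

/-- If all steps `K + a → K + a + 2` with `(a - 2)² ≤ 6 K + 3` are available, then `g 3 = 1`. -/
lemma three_of_region (hg : OddMul g) (hK : Even K) (hK0 : 4000 ≤ K)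
    (hst : ∀ a : ℤ, Odd a → (a - 2) ^ 2 ≤ 6 * K + 3 → g (K + a) = g (K + a + 2)) : g 3 = 1 := by
  obtain ⟨S, hS0, hS1, hS2⟩ := exists_isqrt (6 * K + 3) (by omega)
  obtain ⟨t, ht0, ht1, ht2⟩ := exists_isqrt K (by omega)
  have ht60 : 60 ≤ t := by
    by_contra hcon
    push Not at hcon
    nlinarith
  have hSt : 2449 * t ≤ 1000 * (S + 1) := by
    by_contra hcon
    push Not at hcon
    nlinarith
  have hSK : S ≤ K := by
    by_contra hcon
    push Not at hcon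
    nlinarith
  have hKt : K ≤ t ^ 2 + 2 * t := by nlinarith
  -- constancy on the window
  have hstep : ∀ a : ℤ, Odd a → 2 - S ≤ a → a + 2 ≤ S + 3 → g (K + a) = g (K + (a + 2)) := by
    intro a ha h1 h2
    have := hst a ha (by nlinarith)
    rw [this, add_assoc]
  have hc := const_of_steps (fun a => g (K + a)) hstep
  have hwin : ∀ n : ℤ, Odd n → K + 2 - S ≤ n → n ≤ K + S + 3 → g n = g (K + 1) := by
    intro n hn h1 h2
    have hno : Odd (n - K) := hn.sub_even hK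
    have e : g n = g (K + (n - K)) := by congr 1; ring
    rw [e]
    have h1o : Odd (1 : ℤ) := odd_one
    rcases le_total (n - K) 1 with h | h
    · exact hc (n - K) 1 hno h1o (by omega) h (by omega)
    · exact (hc 1 (n - K) h1o hno (by omega) h (by omega)).symm
  have hL : (1 : ℤ) ≤ K + 2 - S := by omega
  have hj := Int.emod_add_mul_ediv (29 * t) 100
  have hj1 := Int.emod_nonneg (29 * t) (by norm_num : (100 : ℤ) ≠ 0)
  have hj2 := Int.emod_lt_of_pos (29 * t) (by norm_num : (0 : ℤ) < 100)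
  set j := 29 * t / 100 with hjdef
  have hp1 : 58 * t - 100 ≤ 100 * (2 * j + 1) := by omega
  have hp2 : 100 * (2 * j + 1) ≤ 58 * t + 100 := by omega
  refine three_of_const hg hL hwin (p := 2 * j + 1) ⟨j, rfl⟩ (by omega) ?_ ?_
  · have := quad_aux1 t S (2 * j + 1) K ht60 hSt hKt hp1 hp2
    have e : (K + S + 3) - (K + 2 - S) - 3 = 2 * S - 2 := by ring
    have e2 : K + 2 - S - 1 = K + 1 - S := by ring
    rw [e, e2]; exact this
  · have := quad_aux2 t S (2 * j + 1) K ht60 hSt hKt hp1 hp2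
    have e : (K + S + 3) - (K + 2 - S) - 3 = 2 * S - 2 := by ring
    have e2 : K + 2 - S - 1 = K + 1 - S := by ring
    rw [e, e2]; exact this

end Pool.Agent.OddParity
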