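import Pool.Agent.OddParity.Final

set_option autoImplicit false

/-!
# A growing number of odd integers with an odd number of prime factors: statements

Notation: `K = 2 k`, `w = K ^ (1/4)` (a real number), positions `a` mean the odd integers `K + a`.
-/

namespace Pool.Agent.OddParity

/-- The step `K + a → K + a + 2` is cut: no partner serves both numbers. -/
def Cut (K a : ℤ) : Prop :=
  ∃ r : ℤ, 1 ≤ r ∧ r * (2 * K + r - 2) < (a - r + 1) ^ 2 ∧ (a - r + 1) ^ 2 < r * (2 * K + r + 2)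

/-- All steps inside the block `[K + A, K + A + 90 s)` which are not cut preserve the sign. -/
def Block (g : ℤ → ℤˣ) (K A s : ℤ) : Prop :=
  ∀ a : ℤ, Odd a → A ≤ a → a + 2 < A + 90 * s → ¬ Cut K a → g (K + a) = g (K + a + 2)

/-- BLK. A block of length `90 s ≈ 9 √K` without defects outside the cuts forces `g 3 = 1`. -/
def BlockStmt : Prop :=
  ∀ (g : ℤ → ℤˣ) (K A s : ℤ) (w Y : ℝ), OddMul g → Even K → 0 < w → w ^ 4 = (K : ℝ) → 1 ≤ Y →
    10 ^ 6 * Y ^ 2 ≤ w → w ^ 2 ≤ 10 * (s : ℝ) → 10 * (s : ℝ) ≤ w ^ 2 + 11 → 0 ≤ A →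
    (A : ℝ) + 90 * (s : ℝ) ≤ Y * w ^ 2 → Block g K A s → g 3 = 1

/-- The final theorem: at least `c k ^ δ` odd `n` in `((2k-1)², (2k+1)²)` with `Ω(n)` odd, `δ < 1/8`. -/
def GrowStmt : Prop :=
  ∀ δ : ℝ, δ < 1 / 8 → ∃ c : ℝ, 0 < c ∧ ∀ k : ℕ, 1 ≤ k →
    c * (k : ℝ) ^ δ ≤ (((Finset.Ioo ((2 * k - 1) ^ 2) ((2 * k + 1) ^ 2)).filter
      (fun n => Odd n ∧ Odd (ArithmeticFunction.cardFactors n))).card : ℝ)

end Pool.Agent.OddParity
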