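import Pool.Agent.OddParity.Align

set_option autoImplicit false

/-! # Lemma S: positions of cuts -/

namespace Pool.Agent.OddParity

/-- Two cuts with the same `r` coincide. -/
lemma cut_same {K a a0 r : ℤ} (ha : Odd a) (ha0 : Odd a0)
    (h1 : r * (2 * K + r - 2) < (a - r + 1) ^ 2) (h2 : (a - r + 1) ^ 2 < r * (2 * K + r + 2))
    (h3 : r < a - r + 1)
    (h1' : r * (2 * K + r - 2) < (a0 - r + 1) ^ 2) (h2' : (a0 - r + 1) ^ 2 < r * (2 * K + r + 2))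
    (h3' : r < a0 - r + 1) : a = a0 := by
  obtain ⟨x, hx⟩ := ha
  obtain ⟨y, hy⟩ := ha0
  rcases lt_trichotomy x y with h | h | h
  · exfalso
    have : a + 2 ≤ a0 := by omega
    nlinarith
  · omega
  · exfalso
    have : a0 + 2 ≤ a := by omega
    nlinarith

lemma key_cases {r r' j : ℤ} (hj0 : 0 ≤ j) (hj2 : j ≤ 2)
    (key : (r' - r - 2 * j ^ 2) ^ 2 = 8 * j ^ 2 * r) :
    r' = r ∨ ∃ n n' : ℤ, r = 2 * n ^ 2 ∧ r' = 2 * n' ^ 2 := by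
  have hj : j = 0 ∨ j = 1 ∨ j = 2 := by omega
  rcases hj with rfl | rfl | rfl
  · left
    have h1 : (r' - r) ^ 2 = 0 := by
      have : (r' - r - 2 * 0 ^ 2) ^ 2 = (r' - r) ^ 2 := by ring
      rw [← this, key]; ring
    have := pow_eq_zero_iff (two_ne_zero) |>.mp h1
    omega
  · right
    obtain ⟨m, hm⟩ : ∃ m : ℤ, m = r' - r - 2 := ⟨_, rfl⟩
    have hk : m ^ 2 = 8 * r := by rw [hm]; linarith
    obtain ⟨t, rfl⟩ : ∃ t, m = 2 * t := by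
      have : Even (m ^ 2) := by rw [hk]; exact ⟨4 * r, by ring⟩
      obtain ⟨t, ht⟩ := (Int.even_pow' (two_ne_zero)).mp this
      exact ⟨t, by omega⟩
    have hk2 : t ^ 2 = 2 * r := by
      have : (2 * t) ^ 2 = 4 * t ^ 2 := by ring
      omega
    obtain ⟨n, rfl⟩ : ∃ n, t = 2 * n := by
      have : Even (t ^ 2) := by rw [hk2]; exact even_two_mul r
      obtain ⟨n, hn⟩ := (Int.even_pow' (two_ne_zero)).mp this
      exact ⟨n, by omega⟩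
    have h1 : (2 * n) ^ 2 = 4 * n ^ 2 := by ring
    have h2 : (n + 1) ^ 2 = n ^ 2 + 2 * n + 1 := by ring
    exact ⟨n, n + 1, by omega, by omega⟩
  · right
    obtain ⟨m, hm⟩ : ∃ m : ℤ, m = r' - r - 8 := ⟨_, rfl⟩
    have hk : m ^ 2 = 32 * r := by rw [hm]; linarith
    obtain ⟨t, rfl⟩ : ∃ t, m = 2 * t := by
      have : Even (m ^ 2) := by rw [hk]; exact ⟨16 * r, by ring⟩
      obtain ⟨t, ht⟩ := (Int.even_pow' (two_ne_zero)).mp this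
      exact ⟨t, by omega⟩
    have hk2 : t ^ 2 = 8 * r := by
      have : (2 * t) ^ 2 = 4 * t ^ 2 := by ring
      omega
    obtain ⟨n, rfl⟩ : ∃ n, t = 2 * n := by
      have : Even (t ^ 2) := by rw [hk2]; exact ⟨4 * r, by ring⟩
      obtain ⟨n, hn⟩ := (Int.even_pow' (two_ne_zero)).mp this
      exact ⟨n, by omega⟩
    have hk3 : n ^ 2 = 2 * r := by
      have : (2 * n) ^ 2 = 4 * n ^ 2 := by ring
      omega
    obtain ⟨p, rfl⟩ : ∃ p, n = 2 * p := by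
      have : Even (n ^ 2) := by rw [hk3]; exact even_two_mul r
      obtain ⟨p, hp⟩ := (Int.even_pow' (two_ne_zero)).mp this
      exact ⟨p, by omega⟩
    have h1 : (2 * p) ^ 2 = 4 * p ^ 2 := by ring
    have h2 : (p + 2) ^ 2 = p ^ 2 + 4 * p + 4 := by ring
    exact ⟨p, p + 2, by omega, by omega⟩

lemma small_aux {w Y E : ℝ} (hw0 : 0 < w) (hY : 1 ≤ Y)
    (hE : 0 ≤ E) (hbig : 1000 * Y ^ 2 * (E + Y ^ 2) ≤ w ^ 2) :
    3 * Y ^ 4 / w ^ 4 ≤ 3 / 1000000 * (1 / Y ^ 2) ∧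
      (E + Y ^ 2) / w ^ 2 ≤ 1 / 1000 * (1 / Y ^ 2) ∧ 1000 * Y ^ 4 ≤ w ^ 2 := by
  have hw2 : 0 < w ^ 2 := by positivity
  have hw4 : 0 < w ^ 4 := by positivity
  have hY2 : 1 ≤ Y ^ 2 := by nlinarith
  have hw2b : 1000 * Y ^ 4 ≤ w ^ 2 := by
    have h1 : 0 ≤ 1000 * Y ^ 2 * E := by positivity
    have h2 : 1000 * Y ^ 2 * (E + Y ^ 2) = 1000 * Y ^ 2 * E + 1000 * Y ^ 4 := by ring
    linarith
  have hY4b : Y ^ 2 ≤ Y ^ 4 := by
    have : Y ^ 4 = Y ^ 2 * Y ^ 2 := by ring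
    rw [this]; nlinarith
  refine ⟨?_, ?_, hw2b⟩
  · have e0 : 3 / 1000000 * (1 / Y ^ 2) = 3 / (1000000 * Y ^ 2) := by field_simp
    rw [e0, div_le_div_iff₀ hw4 (by positivity)]
    have h1 : (1000 * Y ^ 4) ^ 2 ≤ (w ^ 2) ^ 2 := pow_le_pow_left₀ (by positivity) hw2b 2
    have e : (w ^ 2) ^ 2 = w ^ 4 := by ring
    rw [e] at h1
    have e3 : Y ^ 4 * Y ^ 2 ≤ Y ^ 4 * Y ^ 4 := mul_le_mul_of_nonneg_left hY4b (by positivity)
    have e4 : 3 * Y ^ 4 * (1000000 * Y ^ 2) = 3000000 * (Y ^ 4 * Y ^ 2) := by ring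
    have e5 : (1000 * Y ^ 4) ^ 2 = 1000000 * (Y ^ 4 * Y ^ 4) := by ring
    rw [e4]; rw [e5] at h1
    linarith
  · have e0 : 1 / 1000 * (1 / Y ^ 2) = 1 / (1000 * Y ^ 2) := by field_simp
    rw [e0, div_le_div_iff₀ hw2 (by positivity)]
    linarith

lemma no_align_key {a0 a : ℤ} {w Y E : ℝ} (hw0 : 0 < w) (hY : 1 ≤ Y)
    (hE : 0 ≤ E) (hbig : 1000 * Y ^ 2 * (E + Y ^ 2) ≤ w ^ 2) {r r' : ℤ} (hr : 1 ≤ r) (hr' : 1 ≤ r')
    (q1 : (r : ℝ) ≤ Y ^ 2) (q3 : 0 ≤ ((a0 - r + 1 : ℤ) : ℝ) / w ^ 2)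
    (q4 : ((a0 - r + 1 : ℤ) : ℝ) / w ^ 2 ≤ Y)
    (q5 : |(((a0 - r + 1 : ℤ) : ℝ) / w ^ 2) ^ 2 - 2 * r| ≤ 3 * Y ^ 4 / w ^ 4)
    (q1' : (r' : ℝ) ≤ Y ^ 2)
    (q5' : |(((a - r' + 1 : ℤ) : ℝ) / w ^ 2) ^ 2 - 2 * r'| ≤ 3 * Y ^ 4 / w ^ 4)
    {j : ℤ} (hj0 : 0 ≤ j) (hj2 : j ≤ 2)
    (hdist : |(a : ℝ) - a0 - 2 * j * w ^ 2| ≤ E) :
    (r' - r - 2 * j ^ 2) ^ 2 = 8 * j ^ 2 * r := by
  have hw2 : 0 < w ^ 2 := by positivity
  have hY2 : 1 ≤ Y ^ 2 := by nlinarith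
  obtain ⟨hδ', hε', hw2b⟩ := small_aux hw0 hY hE hbig
  have hrR : (1 : ℝ) ≤ r := by exact_mod_cast hr
  have hrR' : (1 : ℝ) ≤ r' := by exact_mod_cast hr'
  have hd : |((a - r' + 1 : ℤ) : ℝ) / w ^ 2 - ((a0 - r + 1 : ℤ) : ℝ) / w ^ 2 - 2 * j|
      ≤ (E + Y ^ 2) / w ^ 2 := by
    have e : ((a - r' + 1 : ℤ) : ℝ) / w ^ 2 - ((a0 - r + 1 : ℤ) : ℝ) / w ^ 2 - 2 * j
        = (((a : ℝ) - a0 - 2 * j * w ^ 2) + ((r : ℝ) - r')) / w ^ 2 := by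
      push_cast
      field_simp
      ring
    rw [e, abs_div, abs_of_pos hw2]
    apply div_le_div_of_nonneg_right _ hw2.le
    refine (abs_add_le _ _).trans ?_
    have : |(r : ℝ) - r'| ≤ Y ^ 2 := by rw [abs_le]; constructor <;> linarith
    linarith
  have hYinv : 1 / Y ^ 2 ≤ 1 := by
    rw [div_le_one (by positivity)]; exact hY2
  have hYi : 1 / Y ^ 2 * Y ^ 2 = 1 := by field_simp
  have hYpos : 0 < 1 / Y ^ 2 := by positivity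
  generalize 1 / Y ^ 2 = I at hδ' hε' hYinv hYi hYpos
  have hIY : I * Y ≤ 1 := by
    have : I * Y ≤ I * Y ^ 2 := mul_le_mul_of_nonneg_left (by nlinarith) hYpos.le
    linarith
  refine align (x := ((a0 - r + 1 : ℤ) : ℝ) / w ^ 2) (y := ((a - r' + 1 : ℤ) : ℝ) / w ^ 2)
    (δ := 3 / 1000000 * I) (ε := 1 / 1000 * I) (Y := Y) q3 q4 (q5.trans hδ') (q5'.trans hδ')
    (hd.trans hε') hj0 hj2 hY (by linarith) ?_ ?_
  · have e : 16 * (3 / 1000000 * I) + (2 * (3 / 1000000 * I) + 1 / 1000 * I * (2 * Y + 9)) *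
        (4 * Y + 1) = 48 / 1000000 * I + 24 / 1000000 * (I * Y) + 6 / 1000000 * I +
        1 / 1000 * (8 * (I * Y ^ 2) + 38 * (I * Y) + 9 * I) := by ring
    rw [e, hYi]
    linarith
  · have e : 2 * (3 / 1000000 * I) + 1 / 1000 * I * (2 * Y + 9) = 6 / 1000000 * I +
        2 / 1000 * (I * Y) + 9 / 1000 * I := by ring
    rw [e]
    linarith

lemma no_align {K a0 a : ℤ} {w Y E : ℝ} (hw0 : 0 < w) (hw : w ^ 4 = (K : ℝ)) (hY : 1 ≤ Y)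
    (hE : 0 ≤ E) (hbig : 1000 * Y ^ 2 * (E + Y ^ 2) ≤ w ^ 2)
    (ha0o : Odd a0) (hao : Odd a) (ha0 : 0 < a0) (ha : 0 < a) (ha0Y : (a0 : ℝ) ≤ Y * w ^ 2)
    (haY : (a : ℝ) ≤ Y * w ^ 2) (hc0 : Cut K a0) (hc : Cut K a) {j : ℤ} (hj0 : 0 ≤ j) (hj2 : j ≤ 2)
    (hdist : |(a : ℝ) - a0 - 2 * j * w ^ 2| ≤ E) : j = 0 ∧ a = a0 := by
  have hw2 : 0 < w ^ 2 := by positivity
  obtain ⟨r, hr, h1, h2⟩ := hc0
  obtain ⟨r', hr', h1', h2'⟩ := hc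
  obtain ⟨q1, q2, q3, q4, q5⟩ := cut_real hw0 hw hY ha0 ha0Y hr h1 h2
  obtain ⟨q1', q2', q3', q4', q5'⟩ := cut_real hw0 hw hY ha haY hr' h1' h2'
  obtain ⟨-, -, hw2b⟩ := small_aux hw0 hY hE hbig
  have key := no_align_key hw0 hY hE hbig hr hr' q1 q3 q4 q5 q1' q5' hj0 hj2 hdist
  have hsame : r' = r → j = 0 ∧ a = a0 := by
    intro hrr
    subst hrr
    have haa := cut_same hao ha0o h1' h2' q2' h1 h2 q2
    subst haa
    refine ⟨?_, rfl⟩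
    by_contra hj
    have hj1 : 1 ≤ j := by omega
    have hj1R : (1 : ℝ) ≤ j := by exact_mod_cast hj1
    have e : (a : ℝ) - a - 2 * j * w ^ 2 = -(2 * j * w ^ 2) := by ring
    rw [e, abs_neg, abs_of_nonneg (by positivity)] at hdist
    have h3 : E ≤ w ^ 2 := by
      have h4 : 1 ≤ Y ^ 2 := by nlinarith
      have h5 : E * 1 ≤ (E + Y ^ 2) * Y ^ 2 :=
        mul_le_mul (by linarith) h4 (by norm_num) (by positivity)
      have h6 : 0 ≤ (E + Y ^ 2) * Y ^ 2 := by positivity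
      have h7 : 1000 * Y ^ 2 * (E + Y ^ 2) = 1000 * ((E + Y ^ 2) * Y ^ 2) := by ring
      linarith
    have h8 : 1 * w ^ 2 ≤ j * w ^ 2 := mul_le_mul_of_nonneg_right hj1R hw2.le
    linarith
  rcases key_cases hj0 hj2 key with h | ⟨n, n', hn, hn'⟩
  · exact hsame h
  · by_cases hne : |n| = |n'|
    · apply hsame
      have : n ^ 2 = n' ^ 2 := by rw [← sq_abs n, ← sq_abs n', hne]
      rw [hn, hn', this]
    · exfalso
      rw [hn] at h1 h2 hr q1 q2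
      rw [hn'] at h1' h2' hr' q1' q2'
      have hY4 : Y ^ 4 ≤ w ^ 2 := by
        have : 0 ≤ Y ^ 4 := by positivity
        linarith
      exact sq_excl (n := n) (n' := n') hw0 hw hY hY4 ha0o hao hr hr' hne q1 q1' h1 h2
        (by omega) h1' h2' (by omega)

end Pool.Agent.OddParity
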