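import Pool.Agent.OddParity.Generic

set_option autoImplicit false

/-! # The case `2 K + 1 = y ^ 2` -/

namespace Pool.Agent.OddParity

variable {g : ℤ → ℤˣ} {K : ℤ}

/-- The rectangle relation. -/
lemma rect (hg : OddMul g) {p q : ℤ} {e : ℤˣ} (hp : Odd p) (hq : Odd q)
    (h1 : g (p * (q + 2)) = e) (h2 : g ((p + 2) * q) = e) :
    g (p * q) = g ((p + 2) * (q + 2)) := by
  have hp2 : Odd (p + 2) := by
    obtain ⟨c, rfl⟩ := hp
    exact ⟨c + 1, by ring⟩
  have hq2 : Odd (q + 2) := by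
    obtain ⟨c, rfl⟩ := hq
    exact ⟨c + 1, by ring⟩
  rw [hg _ _ hp hq2] at h1
  rw [hg _ _ hp2 hq] at h2
  rw [hg _ _ hp hq, hg _ _ hp2 hq2]
  apply eq_of_mul_eq_one
  have hee : e * e = 1 := Int.units_mul_self e
  calc g p * g q * (g (p + 2) * g (q + 2)) = (g p * g (q + 2)) * (g (p + 2) * g q) := by
        ac_rfl
    _ = 1 := by rw [h1, h2, hee]

/-- The steps beyond the third cut in the case `2 K + 1 = y ^ 2`. -/
lemma step_outer (hg : OddMul g) (hF : Flat g K) (hK : Even K) (hK0 : 4000 ≤ K) {y T R a : ℤ}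
    (hy : y ^ 2 = 2 * K + 1) (hy3 : 3 ≤ y) (hT : 3 * y ^ 2 + 12 ≤ T ^ 2) (hT0 : 0 ≤ T)
    (hR : R ^ 2 ≤ 5 * y ^ 2 + 10) (ha : Odd a) (h1 : T + 2 ≤ a) (h2 : a ≤ R + 4) :
    g (K + a) = g (K + a + 2) := by
  have hyT : y ≤ T := by
    by_contra hcon
    push Not at hcon
    nlinarith
  have hRK : R ≤ K := by
    by_contra hcon
    push Not at hcon
    nlinarith
  have ha2 : 3 * y ^ 2 + 12 ≤ (a - 2) ^ 2 := by
    have : T ^ 2 ≤ (a - 2) ^ 2 := by
      apply pow_le_pow_left₀ hT0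
      omega
    linarith
  have ha4 : (a - 4) ^ 2 ≤ 5 * y ^ 2 + 10 := by
    have : (a - 4) ^ 2 ≤ R ^ 2 := by
      apply pow_le_pow_left₀ (by omega)
      omega
    linarith
  by_cases hA : (a - 3) ^ 2 ≤ 4 * y ^ 2 + 4
  · exact step_r hg hF hK 3 ha (by omega) (by nlinarith) (by nlinarith)
  · push Not at hA
    obtain ⟨b, hb⟩ := ha
    have hb3 : (a - 3) ^ 2 = 4 * (b - 1) ^ 2 := by rw [hb]; ring
    have hge : y ^ 2 + 5 ≤ (b - 1) ^ 2 := by
      have h5 : y ^ 2 + 1 < (b - 1) ^ 2 := by omega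
      have h6 : y + 1 ≤ b - 1 := by
        by_contra hcon
        push Not at hcon
        have h7 : (b - 1) ^ 2 ≤ y ^ 2 := by
          apply pow_le_pow_left₀ (by omega)
          omega
        omega
      have h8 : (y + 1) ^ 2 ≤ (b - 1) ^ 2 := by
        apply pow_le_pow_left₀ (by omega) h6
      have h9 : (y + 1) ^ 2 = y ^ 2 + 2 * y + 1 := by ring
      omega
    exact step_r hg hF hK 4 ⟨b, hb⟩ (by omega) (by nlinarith) (by nlinarith)

end Pool.Agent.OddParity
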